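import Mathlib

/-!
Sign patterns of linear relations of a finite vector family, and the flip lemma.
-/

set_option linter.unusedSectionVars false

namespace Pool.Agent.H36.DV

open Finset

variable {ι W : Type*} [DecidableEq ι] [AddCommGroup W] [Module ℝ W]

/-- The rank of the subfamily `v i`, `i ∈ A`. -/
noncomputable def rk (v : ι → W) (A : Finset ι) : ℕ :=
  Module.finrank ℝ (Submodule.span ℝ (v '' (A : Set ι)))

/-- A linear relation between the `v i`, supported on `S`. -/
def IsRel (v : ι → W) (S : Finset ι) (l : ι → ℝ) : Prop :=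
  (∀ i, i ∉ S → l i = 0) ∧ ∑ i ∈ S, l i • v i = 0

/-- `P` is the positive part of a relation of full support `S`. -/
def IsTope (v : ι → W) (S P : Finset ι) : Prop :=
  P ⊆ S ∧ ∃ l, IsRel v S l ∧ (∀ i ∈ P, 0 < l i) ∧ (∀ i ∈ S, i ∉ P → l i < 0)

/-- No element, and no pair of elements, is needed to span. -/
def Simple (v : ι → W) (S : Finset ι) : Prop :=
  2 ≤ S.card ∧ ∀ i ∈ S, ∀ j ∈ S, i ≠ j →
    v j ∈ Submodule.span ℝ (v '' (((S.erase i).erase j : Finset ι) : Set ι))

/-- The space of relations. -/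
def relSub (v : ι → W) (S : Finset ι) : Submodule ℝ (ι → ℝ) where
  carrier := {l | IsRel v S l}
  add_mem' := by
    rintro a b ⟨ha, ha'⟩ ⟨hb, hb'⟩
    refine ⟨fun i hi => by simp [ha i hi, hb i hi], ?_⟩
    simp only [Pi.add_apply, add_smul, sum_add_distrib, ha', hb', add_zero]
  zero_mem' := ⟨fun _ _ => rfl, by simp⟩
  smul_mem' := by
    rintro c a ⟨ha, ha'⟩
    refine ⟨fun i hi => by simp [ha i hi], ?_⟩
    simp only [Pi.smul_apply, smul_eq_mul, mul_smul, ← smul_sum, ha', smul_zero]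

lemma mem_relSub {v : ι → W} {S : Finset ι} {l : ι → ℝ} : l ∈ relSub v S ↔ IsRel v S l := Iff.rfl

/-- Finitely many nonzero functionals have a common non-zero point. -/
lemma exists_generic {M α : Type*} [AddCommGroup M] [Module ℝ M] (T : Finset α)
    (F : α → M →ₗ[ℝ] ℝ) (hF : ∀ a ∈ T, F a ≠ 0) : ∃ x, ∀ a ∈ T, F a x ≠ 0 := by
  classical
  have h := Subspace.biUnion_ne_univ_of_top_notMem (k := ℝ) (E := M)
    (s := T.image fun a => LinearMap.ker (F a)) (by
      intro h
      rw [mem_image] at h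
      obtain ⟨a, ha, h⟩ := h
      exact hF a ha (LinearMap.ker_eq_top.mp h))
  rw [Set.ne_univ_iff_exists_notMem] at h
  obtain ⟨x, hx⟩ := h
  refine ⟨x, fun a ha h0 => hx ?_⟩
  simp only [Set.mem_iUnion]
  exact ⟨LinearMap.ker (F a), mem_image_of_mem _ ha, h0⟩

lemma exists_fun_of_mem_span {v : ι → W} {A : Finset ι} {w : W}
    (h : w ∈ Submodule.span ℝ (v '' (A : Set ι))) : ∃ c : ι → ℝ, ∑ i ∈ A, c i • v i = w := by
  rw [Submodule.mem_span_image_finset_iff_exists_fun] at h
  obtain ⟨c, hc⟩ := h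
  refine ⟨fun i => if hi : i ∈ A then c ⟨i, hi⟩ else 0, ?_⟩
  rw [← hc, ← sum_coe_sort]
  refine sum_congr rfl fun i _ => ?_
  simp

/-- A vector in the span of the others gives a relation. -/
lemma exists_rel_of_mem_span {v : ι → W} {A : Finset ι} {j : ι} (hj : j ∉ A)
    (h : v j ∈ Submodule.span ℝ (v '' (A : Set ι))) :
    ∃ l, IsRel v (insert j A) l ∧ l j = 1 := by
  obtain ⟨c, hc⟩ := exists_fun_of_mem_span h
  refine ⟨fun i => if i = j then 1 else if i ∈ A then - c i else 0, ⟨?_, ?_⟩, by simp⟩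
  · intro i hi
    rw [mem_insert, not_or] at hi
    simp [hi.1, hi.2]
  · rw [sum_insert hj]
    have : ∑ x ∈ A, (if x = j then (1 : ℝ) else if x ∈ A then - c x else 0) • v x
        = ∑ x ∈ A, - (c x • v x) := by
      refine sum_congr rfl fun x hx => ?_
      have : x ≠ j := fun h => hj (h ▸ hx)
      simp [this, hx]
    rw [this, sum_neg_distrib, hc]
    simp

lemma IsRel.mono {v : ι → W} {A S : Finset ι} (hAS : A ⊆ S) {l : ι → ℝ} (h : IsRel v A l) :
    IsRel v S l := by
  refine ⟨fun i hi => h.1 i fun h' => hi (hAS h'), ?_⟩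
  rw [← h.2]
  symm
  refine sum_subset hAS fun i _ hi => ?_
  rw [h.1 i hi, zero_smul]

lemma IsRel.of_supp {v : ι → W} {A S : Finset ι} (hAS : A ⊆ S) {l : ι → ℝ} (h : IsRel v S l)
    (h0 : ∀ i, i ∉ A → l i = 0) : IsRel v A l := by
  refine ⟨h0, ?_⟩
  rw [← h.2]
  refine sum_subset hAS fun i _ hi => ?_
  rw [h0 i hi, zero_smul]

lemma IsRel.neg {v : ι → W} {S : Finset ι} {l : ι → ℝ} (h : IsRel v S l) : IsRel v S (-l) :=
  (relSub v S).neg_mem h

lemma IsRel.add {v : ι → W} {S : Finset ι} {l m : ι → ℝ} (h : IsRel v S l) (h' : IsRel v S m) :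
    IsRel v S (l + m) :=
  (relSub v S).add_mem h h'

lemma IsRel.smul {v : ι → W} {S : Finset ι} {l : ι → ℝ} (c : ℝ) (h : IsRel v S l) :
    IsRel v S (c • l) :=
  (relSub v S).smul_mem c h

/-- a relation with nonzero coefficient at `j` puts `v j` in the span of the others -/
lemma IsRel.mem_span {v : ι → W} {S : Finset ι} {l : ι → ℝ} (h : IsRel v S l) {j : ι}
    (hj : l j ≠ 0) : v j ∈ Submodule.span ℝ (v '' ((S.erase j : Finset ι) : Set ι)) := by
  have hjS : j ∈ S := by
    by_contra h'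
    exact hj (h.1 j h')
  have h2 := h.2
  rw [← add_sum_erase S _ hjS] at h2
  have : v j = (- (l j)⁻¹) • ∑ x ∈ S.erase j, l x • v x := by
    have h3 : ∑ x ∈ S.erase j, l x • v x = - (l j • v j) := by
      rw [eq_neg_iff_add_eq_zero, add_comm]; exact h2
    rw [h3, smul_neg, neg_smul, neg_neg, smul_smul, inv_mul_cancel₀ hj, one_smul]
  rw [this]
  refine Submodule.smul_mem _ _ (Submodule.sum_mem _ fun i hi => Submodule.smul_mem _ _ ?_)
  exact Submodule.subset_span ⟨i, hi, rfl⟩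

lemma Simple.exists_rel {v : ι → W} {S : Finset ι} (hs : Simple v S) {i j : ι} (hi : i ∈ S)
    (hj : j ∈ S) (hij : i ≠ j) : ∃ l, IsRel v S l ∧ l i = 0 ∧ l j = 1 := by
  obtain ⟨l, hl, hlj⟩ := exists_rel_of_mem_span (j := j) (A := (S.erase i).erase j)
    (by simp) (hs.2 i hi j hj hij)
  refine ⟨l, hl.mono ?_, hl.1 i ?_, hlj⟩
  · intro x hx
    rw [mem_insert] at hx
    rcases hx with rfl | hx
    · exact hj
    · exact (erase_subset _ _) ((erase_subset _ _) hx)
  · simp [hij]

lemma Simple.exists_rel' {v : ι → W} {S : Finset ι} (hs : Simple v S) {j : ι}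
    (hj : j ∈ S) : ∃ l, IsRel v S l ∧ l j = 1 := by
  obtain ⟨i, hi, hij⟩ := Finset.exists_mem_ne (s := S) (by have := hs.1; omega) j
  obtain ⟨l, hl, -, h⟩ := hs.exists_rel hi hj hij
  exact ⟨l, hl, h⟩

/-- There is at least one tope. -/
lemma exists_tope {v : ι → W} {S : Finset ι} (hs : Simple v S) : ∃ P, IsTope v S P := by
  obtain ⟨x, hx⟩ := exists_generic S
    (fun i => ((LinearMap.proj i : (ι → ℝ) →ₗ[ℝ] ℝ)).comp (relSub v S).subtype) (by
      intro i hi h
      obtain ⟨l, hl, hli⟩ := hs.exists_rel' hi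
      have := congrArg (fun f => f ⟨l, hl⟩) h
      simp [hli] at this)
  refine ⟨S.filter fun i => 0 < (x : ι → ℝ) i, filter_subset _ _, x, x.2, ?_, ?_⟩
  · intro i hi
    exact (mem_filter.mp hi).2
  · intro i hi hi'
    have h1 : (x : ι → ℝ) i ≠ 0 := by simpa using hx i hi
    have h2 : ¬ 0 < (x : ι → ℝ) i := fun h => hi' (mem_filter.mpr ⟨hi, h⟩)
    exact lt_of_le_of_ne (not_lt.mp h2) h1

lemma IsTope.compl {v : ι → W} {S P : Finset ι} (h : IsTope v S P) : IsTope v S (S \ P) := by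
  obtain ⟨hP, l, hl, h1, h2⟩ := h
  refine ⟨sdiff_subset, -l, hl.neg, ?_, ?_⟩
  · intro i hi
    rw [mem_sdiff] at hi
    simpa using h2 i hi.1 hi.2
  · intro i hi hi'
    have : i ∈ P := by
      by_contra h
      exact hi' (mem_sdiff.mpr ⟨hi, h⟩)
    simpa using h1 i this

/-- **Flip lemma.** Moving a tope in the direction of a relation `η` flips exactly one sign. -/
lemma flip {v : ι → W} {S P : Finset ι} (hs : Simple v S) (hP : IsTope v S P) {η : ι → ℝ}
    (hη : IsRel v S η) (h0 : ∃ i ∈ S, (i ∈ P ∧ η i < 0) ∨ (i ∉ P ∧ 0 < η i)) :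
    ∃ j ∈ S, (j ∈ P ∧ η j < 0 ∧ IsTope v S (P.erase j)) ∨
      (j ∉ P ∧ 0 < η j ∧ IsTope v S (insert j P)) := by
  classical
  obtain ⟨hPS, l, hl, hlp, hln⟩ := hP
  set I : Finset ι := S.filter fun i => (i ∈ P ∧ η i < 0) ∨ (i ∉ P ∧ 0 < η i) with hI
  have hIne : I.Nonempty := by
    obtain ⟨i, hi, h⟩ := h0
    exact ⟨i, mem_filter.mpr ⟨hi, h⟩⟩
  have hIη : ∀ i ∈ I, η i ≠ 0 := by
    intro i hi
    rcases (mem_filter.mp hi).2 with h | h
    · exact h.2.ne
    · exact h.2.ne'
  set T : Finset (ι × ι) := (I ×ˢ I).filter fun p => p.1 ≠ p.2 with hT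
  obtain ⟨μ, hμ⟩ := exists_generic T
    (fun p => ((η p.2 • (LinearMap.proj p.1 : (ι → ℝ) →ₗ[ℝ] ℝ)
      - η p.1 • (LinearMap.proj p.2 : (ι → ℝ) →ₗ[ℝ] ℝ))).comp (relSub v S).subtype) (by
      intro p hp h
      rw [hT, mem_filter, mem_product] at hp
      obtain ⟨r, hr, hr1, hr2⟩ := hs.exists_rel (mem_filter.mp hp.1.1).1
        (mem_filter.mp hp.1.2).1 hp.2
      have := congrArg (fun f => f ⟨r, hr⟩) h
      simp [hr1, hr2] at this
      exact hIη _ hp.1.1 this)
  have hμ' : ∀ i ∈ I, ∀ j ∈ I, i ≠ j →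
      η j * (μ : ι → ℝ) i - η i * (μ : ι → ℝ) j ≠ 0 := by
    intro i hi j hj hij
    have := hμ (i, j) (by rw [hT, mem_filter, mem_product]; exact ⟨⟨hi, hj⟩, hij⟩)
    simpa using this
  set ν : ι → ℝ := (μ : ι → ℝ) with hν
  -- choose a small perturbation
  have ev1 : ∀ᶠ e in nhdsWithin (0 : ℝ) (Set.Ioi 0), ∀ i ∈ P, 0 < l i + e * ν i := by
    rw [Filter.eventually_all_finset]
    intro i hi
    apply Filter.Eventually.filter_mono nhdsWithin_le_nhds
    have : Filter.Tendsto (fun e : ℝ => l i + e * ν i) (nhds 0) (nhds (l i + 0 * ν i)) := by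
      apply Continuous.tendsto
      fun_prop
    rw [zero_mul, add_zero] at this
    exact this.eventually_const_lt (hlp i hi)
  have ev2 : ∀ᶠ e in nhdsWithin (0 : ℝ) (Set.Ioi 0), ∀ i ∈ S \ P, l i + e * ν i < 0 := by
    rw [Filter.eventually_all_finset]
    intro i hi
    rw [mem_sdiff] at hi
    apply Filter.Eventually.filter_mono nhdsWithin_le_nhds
    have : Filter.Tendsto (fun e : ℝ => l i + e * ν i) (nhds 0) (nhds (l i + 0 * ν i)) := by
      apply Continuous.tendsto
      fun_prop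
    rw [zero_mul, add_zero] at this
    exact this.eventually_lt_const (hln i hi.1 hi.2)
  have ev3 : ∀ᶠ e in nhdsWithin (0 : ℝ) (Set.Ioi 0), ∀ p ∈ T,
      η p.2 * (l p.1 + e * ν p.1) - η p.1 * (l p.2 + e * ν p.2) ≠ 0 := by
    rw [Filter.eventually_all_finset]
    intro p hp
    rw [hT, mem_filter, mem_product] at hp
    by_cases hz : η p.2 * l p.1 - η p.1 * l p.2 = 0
    · filter_upwards [self_mem_nhdsWithin] with e he
      have he : 0 < e := he
      have h1 := hμ' p.1 hp.1.1 p.2 hp.1.2 hp.2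
      have h2 : η p.2 * (l p.1 + e * ν p.1) - η p.1 * (l p.2 + e * ν p.2)
          = e * (η p.2 * ν p.1 - η p.1 * ν p.2) := by linear_combination hz
      rw [h2]
      exact mul_ne_zero he.ne' h1
    · apply Filter.Eventually.filter_mono nhdsWithin_le_nhds
      have : Filter.Tendsto (fun e : ℝ => η p.2 * (l p.1 + e * ν p.1)
          - η p.1 * (l p.2 + e * ν p.2)) (nhds 0)
          (nhds (η p.2 * (l p.1 + 0 * ν p.1) - η p.1 * (l p.2 + 0 * ν p.2))) := by
        apply Continuous.tendsto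
        fun_prop
      simp only [zero_mul, add_zero] at this
      exact this.eventually_ne hz
  obtain ⟨e, he1, he2, he3⟩ := (ev1.and (ev2.and ev3)).exists
  set m : ι → ℝ := l + e • ν with hm
  have hmrel : IsRel v S m := hl.add ((mem_relSub.mp μ.2).smul e)
  have hmi : ∀ i, m i = l i + e * ν i := fun i => by simp [hm]
  have hmp : ∀ i ∈ P, 0 < m i := fun i hi => by rw [hmi]; exact he1 i hi
  have hmn : ∀ i ∈ S, i ∉ P → m i < 0 := fun i hi hi' => by
    rw [hmi]; exact he2 i (mem_sdiff.mpr ⟨hi, hi'⟩)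
  set t : ι → ℝ := fun i => - m i / η i with ht
  obtain ⟨j, hj, hjmin⟩ := exists_min_image I t hIne
  have htpos : ∀ i ∈ I, 0 < t i := by
    intro i hi
    rcases (mem_filter.mp hi).2 with h | h
    · exact div_pos_of_neg_of_neg (by linarith [hmp i h.1]) h.2
    · exact div_pos (by linarith [hmn i (mem_filter.mp hi).1 h.1]) h.2
  have hjlt : ∀ i ∈ I, i ≠ j → t j < t i := by
    intro i hi hij
    refine lt_of_le_of_ne (hjmin i hi) ?_
    intro h
    have h3 := he3 (j, i) (by rw [hT, mem_filter, mem_product]; exact ⟨⟨hj, hi⟩, hij.symm⟩)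
    rw [← hmi, ← hmi] at h3
    apply h3
    have hηj := hIη j hj
    have hηi := hIη i hi
    simp only [ht] at h
    rw [div_eq_div_iff hηj hηi] at h
    show η i * m j - η j * m i = 0
    linarith
  have ev4 : ∀ᶠ s in nhdsWithin (t j) (Set.Ioi (t j)), ∀ i ∈ I.erase j, s < t i := by
    rw [Filter.eventually_all_finset]
    intro i hi
    rw [mem_erase] at hi
    apply Filter.Eventually.filter_mono nhdsWithin_le_nhds
    exact eventually_lt_nhds (hjlt i hi.2 hi.1)
  obtain ⟨s, hs4, hsj⟩ := (ev4.and self_mem_nhdsWithin).exists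
  have hsj : t j < s := hsj
  have hs0 : 0 < s := (htpos j hj).trans hsj
  have hrel : IsRel v S (m + s • η) := hmrel.add (hη.smul s)
  have hval : ∀ i, (m + s • η) i = m i + s * η i := fun i => by simp
  have hPi : ∀ i ∈ P, i ≠ j → 0 < (m + s • η) i := by
    intro i hi hij
    rw [hval]
    by_cases hneg : η i < 0
    · have hiI : i ∈ I := mem_filter.mpr ⟨hPS hi, Or.inl ⟨hi, hneg⟩⟩
      have h4 := hs4 i (mem_erase.mpr ⟨hij, hiI⟩)
      simp only [ht] at h4
      rw [lt_div_iff_of_neg hneg] at h4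
      linarith
    · have := mul_nonneg hs0.le (not_lt.mp hneg)
      linarith [hmp i hi]
  have hQi : ∀ i ∈ S, i ∉ P → i ≠ j → (m + s • η) i < 0 := by
    intro i hi hiP hij
    rw [hval]
    by_cases hpos : 0 < η i
    · have hiI : i ∈ I := mem_filter.mpr ⟨hi, Or.inr ⟨hiP, hpos⟩⟩
      have h4 := hs4 i (mem_erase.mpr ⟨hij, hiI⟩)
      simp only [ht] at h4
      rw [lt_div_iff₀ hpos] at h4
      linarith
    · have := mul_nonpos_of_nonneg_of_nonpos hs0.le (not_lt.mp hpos)
      linarith [hmn i hi hiP]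
  refine ⟨j, (mem_filter.mp hj).1, ?_⟩
  rcases (mem_filter.mp hj).2 with h | h
  · left
    refine ⟨h.1, h.2, (erase_subset _ _).trans hPS, m + s • η, hrel, ?_, ?_⟩
    · intro i hi
      rw [mem_erase] at hi
      exact hPi i hi.2 hi.1
    · intro i hi hi'
      by_cases hij : i = j
      · subst hij
        rw [hval]
        have h5 := hsj
        simp only [ht] at h5
        rw [div_lt_iff_of_neg h.2] at h5
        linarith
      · refine hQi i hi (fun hiP => hi' (mem_erase.mpr ⟨hij, hiP⟩)) hij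
  · right
    refine ⟨h.1, h.2, insert_subset (mem_filter.mp hj).1 hPS, m + s • η, hrel, ?_, ?_⟩
    · intro i hi
      rw [mem_insert] at hi
      by_cases hij : i = j
      · subst hij
        rw [hval]
        have h5 := hsj
        simp only [ht] at h5
        rw [div_lt_iff₀ h.2] at h5
        linarith
      · exact hPi i (hi.resolve_left hij) hij
    · intro i hi hi'
      rw [mem_insert, not_or] at hi'
      exact hQi i hi hi'.2 hi'.1

end Pool.Agent.H36.DV
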