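import Pool.Agent.H36.DV.Induct

/-!
Translation to convex geometry.
-/

set_option linter.unusedSectionVars false

namespace Pool.Agent.H36.DV

open Finset

/-- `ℝ ^ d` -/
abbrev Pt (d : ℕ) : Type := EuclideanSpace ℝ (Fin d)

/-- `k`-independence: every subset with at most `k + 1` points is affinely independent -/
def KIndep (k : ℕ) {d : ℕ} (S : Finset (Pt d)) : Prop :=
  ∀ T : Finset (Pt d), T ⊆ S → T.card ≤ k + 1 →
    AffineIndependent ℝ (fun p : T => (p : Pt d))

/-- `(2, k)`-divisibility -/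
def Divisible (k : ℕ) {d : ℕ} (S : Finset (Pt d)) : Prop :=
  ∃ A B : Set (Pt d), A ∪ B = (S : Set (Pt d)) ∧ Disjoint A B ∧
    (convexHull ℝ A ∩ convexHull ℝ B).Nonempty ∧
    k ≤ Module.finrank ℝ (vectorSpan ℝ (convexHull ℝ A ∩ convexHull ℝ B))

/-- the least `n` such that every `k`-independent set of at least `n` points is divisible -/
noncomputable def N (k d : ℕ) : ℕ :=
  sInf {n | ∀ S : Finset (Pt d), KIndep k S → n ≤ S.card → Divisible k S}

/-- the lift -/
def lift {d : ℕ} (p : Pt d) : Pt d × ℝ := (p, 1)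

lemma sum_lift {d : ℕ} (A : Finset (Pt d)) (l : Pt d → ℝ) :
    ∑ p ∈ A, l p • lift p = (∑ p ∈ A, l p • p, ∑ p ∈ A, l p) := by
  simp [lift, Prod.smul_mk, Prod.ext_iff, Prod.fst_sum, Prod.snd_sum]

open Classical in
lemma kInd_of {k d : ℕ} {S : Finset (Pt d)} (h : KIndep k S) : KInd lift S k := by
  intro J hJ hc
  apply le_antisymm (rk_le_card _ _)
  by_contra hlt
  push Not at hlt
  obtain ⟨l, hl, hne⟩ := exists_rel_of_lt lift hlt
  apply hne
  have h1 := h J hJ hc
  rw [affineIndependent_iff] at h1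
  have h2 := hl.2
  rw [sum_lift, Prod.mk_eq_zero] at h2
  funext p
  by_cases hp : p ∈ J
  · refine h1 univ (fun q => l q) ?_ ?_ ⟨p, hp⟩ (mem_univ _)
    · rw [← h2.2]
      exact sum_coe_sort J l
    · rw [← h2.1]
      exact sum_coe_sort J (fun q => l q • q)
  · exact hl.1 p hp

lemma finrank_lift (d : ℕ) : Module.finrank ℝ (Pt d × ℝ) = d + 1 := by
  rw [Module.finrank_prod]
  simp

open Classical in
lemma rk_le {d : ℕ} (A : Finset (Pt d)) : rk lift A ≤ d + 1 := by
  rw [← finrank_lift d]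
  exact Submodule.finrank_le _

open Classical in
/-- the convex combination near an interior one -/
lemma mem_hull {d : ℕ} {P : Finset (Pt d)} {l a : Pt d → ℝ} (hl : ∀ p ∈ P, 0 < l p)
    (hsum : ∑ p ∈ P, l p = 1) (ha : ∑ p ∈ P, a p = 0) :
    ∀ᶠ e in nhdsWithin (0 : ℝ) (Set.Ioi 0),
      ∑ p ∈ P, l p • p + e • ∑ p ∈ P, a p • p ∈ convexHull ℝ (P : Set (Pt d)) := by
  have ev1 : ∀ᶠ e in nhdsWithin (0 : ℝ) (Set.Ioi 0), ∀ p ∈ P, 0 < l p + e * a p := by
    rw [Filter.eventually_all_finset]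
    intro p hp
    apply Filter.Eventually.filter_mono nhdsWithin_le_nhds
    have : Filter.Tendsto (fun e : ℝ => l p + e * a p) (nhds 0) (nhds (l p + 0 * a p)) := by
      apply Continuous.tendsto
      fun_prop
    rw [zero_mul, add_zero] at this
    exact this.eventually_const_lt (hl p hp)
  filter_upwards [ev1] with e he
  have h1 : ∑ p ∈ P, l p • p + e • ∑ p ∈ P, a p • p = ∑ p ∈ P, (l p + e * a p) • p := by
    rw [smul_sum, ← sum_add_distrib]
    refine sum_congr rfl fun p _ => ?_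
    rw [add_smul, mul_smul]
  rw [h1]
  have h2 : ∑ p ∈ P, (l p + e * a p) = 1 := by
    rw [sum_add_distrib, ← mul_sum, hsum, ha, mul_zero, add_zero]
  exact (convex_convexHull ℝ _).sum_mem (fun p hp => (he p hp).le) h2
    fun p hp => subset_convexHull ℝ _ hp

open Classical in
/-- geometric divisibility from the relation -/
lemma divisible_of {k d : ℕ} {S : Finset (Pt d)} (h : DivS lift S k) : Divisible k S := by
  obtain ⟨P, Q, hP, hQ, hPQ, ⟨l, hl, hlp, hlq⟩, hrk⟩ := h
  have hrQ : rk lift Q ≤ rk lift (P ∪ Q) := rk_mono _ subset_union_right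
  have hrP : rk lift P ≤ rk lift (P ∪ Q) := rk_mono _ subset_union_left
  have hPne : P.Nonempty := by
    rw [nonempty_iff_ne_empty]
    rintro rfl
    have := rk_le_card lift (∅ : Finset (Pt d))
    simp only [card_empty] at this
    omega
  have h2 := hl.2
  rw [sum_union hPQ, sum_lift, sum_lift, Prod.mk_add_mk, Prod.mk_eq_zero] at h2
  set L := ∑ p ∈ P, l p with hL
  have hLpos : 0 < L := sum_pos hlp hPne
  have hLQ : ∑ p ∈ Q, l p = - L := by linarith [h2.2]
  have hvQ : ∑ p ∈ Q, l p • p = - ∑ p ∈ P, l p • p := by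
    rw [eq_neg_iff_add_eq_zero, add_comm]; exact h2.1
  set x0 : Pt d := L⁻¹ • ∑ p ∈ P, l p • p with hx0
  -- weights of total mass one
  have hwP : ∑ p ∈ P, (L⁻¹ * l p) = 1 := by rw [← mul_sum, ← hL, inv_mul_cancel₀ hLpos.ne']
  have hwQ : ∑ p ∈ Q, (- L⁻¹ * l p) = 1 := by
    rw [← mul_sum, hLQ, neg_mul_neg, inv_mul_cancel₀ hLpos.ne']
  have hxP : ∑ p ∈ P, (L⁻¹ * l p) • p = x0 := by
    rw [hx0, smul_sum]
    exact sum_congr rfl fun p _ => mul_smul _ _ _
  have hxQ : ∑ p ∈ Q, (- L⁻¹ * l p) • p = x0 := by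
    have : ∑ p ∈ Q, (- L⁻¹ * l p) • p = - L⁻¹ • ∑ p ∈ Q, l p • p := by
      rw [smul_sum]
      exact sum_congr rfl fun p _ => mul_smul _ _ _
    rw [this, hvQ, smul_neg, neg_smul, neg_neg, hx0]
  set K : Set (Pt d) := convexHull ℝ (P : Set (Pt d)) ∩ convexHull ℝ (Q : Set (Pt d)) with hK
  -- the point and the directions
  have hdir : ∀ w : Pt d, (w, (0 : ℝ)) ∈ sp lift P ⊓ sp lift Q →
      ∃ e : ℝ, 0 < e ∧ x0 + e • w ∈ K := by
    intro w hw
    obtain ⟨a, ha⟩ := exists_fun_of_mem_span hw.1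
    obtain ⟨b, hb⟩ := exists_fun_of_mem_span hw.2
    rw [sum_lift, Prod.mk.injEq] at ha hb
    have e1 := mem_hull (P := P) (l := fun p => L⁻¹ * l p) (a := a)
      (fun p hp => mul_pos (inv_pos.mpr hLpos) (hlp p hp)) hwP ha.2
    have e2 := mem_hull (P := Q) (l := fun p => - L⁻¹ * l p) (a := b)
      (fun p hp => by
        have := mul_pos (inv_pos.mpr hLpos) (neg_pos.mpr (hlq p hp))
        linarith) hwQ hb.2
    rw [hxP, ha.1] at e1
    rw [hxQ, hb.1] at e2
    obtain ⟨e, he1, he2, he0⟩ := (e1.and (e2.and self_mem_nhdsWithin)).exists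
    exact ⟨e, he0, he1, he2⟩
  have hx0K : x0 ∈ K := by
    obtain ⟨e, -, he⟩ := hdir 0 (by exact zero_mem _)
    simpa using he
  have hspan : ∀ w : Pt d, (w, (0 : ℝ)) ∈ sp lift P ⊓ sp lift Q → w ∈ vectorSpan ℝ K := by
    intro w hw
    obtain ⟨e, he0, he⟩ := hdir w hw
    have h3 := vsub_mem_vectorSpan ℝ he hx0K
    rw [vsub_eq_sub, add_sub_cancel_left] at h3
    have h4 := Submodule.smul_mem _ e⁻¹ h3
    rwa [smul_smul, inv_mul_cancel₀ he0.ne', one_smul] at h4
  -- dimensions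
  have hf := finrank_inf lift P Q
  set D := sp lift P ⊓ sp lift Q with hD
  have : FiniteDimensional ℝ ↥D := Submodule.finiteDimensional_inf_left _ _
  set f : ↥D →ₗ[ℝ] ℝ := (LinearMap.snd ℝ (Pt d) ℝ).domRestrict D with hf'
  have hrn := LinearMap.finrank_range_add_finrank_ker f
  have hr1 : Module.finrank ℝ (LinearMap.range f) ≤ 1 := by
    have := Submodule.finrank_le (LinearMap.range f)
    simpa using this
  set g : ↥(LinearMap.ker f) →ₗ[ℝ] Pt d :=
    (LinearMap.fst ℝ (Pt d) ℝ).comp (D.subtype.comp (LinearMap.ker f).subtype) with hg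
  have hginj : Function.Injective g := by
    rw [injective_iff_map_eq_zero]
    intro x hx
    have hx1 : ((x : ↥D) : Pt d × ℝ).1 = 0 := hx
    have hx2 : ((x : ↥D) : Pt d × ℝ).2 = 0 := by
      have := x.2
      rw [LinearMap.mem_ker] at this
      exact this
    apply Subtype.ext
    apply Subtype.ext
    exact Prod.ext hx1 hx2
  have hgr : Module.finrank ℝ (LinearMap.range g) = Module.finrank ℝ (LinearMap.ker f) :=
    LinearMap.finrank_range_of_inj hginj
  have hgle : LinearMap.range g ≤ vectorSpan ℝ K := by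
    rintro _ ⟨x, rfl⟩
    apply hspan
    have hx2 : ((x : ↥D) : Pt d × ℝ).2 = 0 := by
      have := x.2
      rw [LinearMap.mem_ker] at this
      exact this
    have : (g x, (0 : ℝ)) = ((x : ↥D) : Pt d × ℝ) := Prod.ext rfl hx2.symm
    rw [this]
    exact (x : ↥D).2
  have hkK : k ≤ Module.finrank ℝ (vectorSpan ℝ K) := by
    have := Submodule.finrank_mono hgle
    omega
  have hsub : K ⊆ convexHull ℝ ((S \ Q : Finset (Pt d)) : Set (Pt d)) ∩
      convexHull ℝ (Q : Set (Pt d)) := by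
    refine Set.inter_subset_inter_left _ (convexHull_mono ?_)
    intro p hp
    rw [mem_coe, mem_sdiff]
    exact ⟨hP hp, Finset.disjoint_left.mp hPQ hp⟩
  refine ⟨((S \ Q : Finset (Pt d)) : Set (Pt d)), (Q : Set (Pt d)), ?_, ?_, ⟨x0, hsub hx0K⟩, ?_⟩
  · rw [← coe_union, sdiff_union_of_subset hQ]
  · rw [disjoint_coe]
    exact sdiff_disjoint
  · exact hkK.trans (Submodule.finrank_mono (vectorSpan_mono ℝ hsub))

open Classical in
/-- the converse for dimensions -/
lemma rk_of_inter {k d : ℕ} {A B : Finset (Pt d)}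
    (hne : (convexHull ℝ (A : Set (Pt d)) ∩ convexHull ℝ (B : Set (Pt d))).Nonempty)
    (hk : k ≤ Module.finrank ℝ (vectorSpan ℝ
      (convexHull ℝ (A : Set (Pt d)) ∩ convexHull ℝ (B : Set (Pt d))))) :
    rk lift (A ∪ B) + k + 1 ≤ rk lift A + rk lift B := by
  have hmem : ∀ (C : Finset (Pt d)) (x : Pt d), x ∈ convexHull ℝ (C : Set (Pt d)) →
      lift x ∈ sp lift C := by
    intro C x hx
    rw [Finset.mem_convexHull'] at hx
    obtain ⟨w, -, hw1, hw2⟩ := hx
    have : lift x = ∑ p ∈ C, w p • lift p := by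
      rw [sum_lift, hw1, hw2]; rfl
    rw [this]
    exact Submodule.sum_mem _ fun p hp => Submodule.smul_mem _ _ (mem_sp _ hp)
  set K := convexHull ℝ (A : Set (Pt d)) ∩ convexHull ℝ (B : Set (Pt d)) with hK
  have hf := finrank_inf lift A B
  set D := sp lift A ⊓ sp lift B with hD
  have : FiniteDimensional ℝ ↥D := Submodule.finiteDimensional_inf_left _ _
  have hKD : ∀ x ∈ K, lift x ∈ D := fun x hx => ⟨hmem A x hx.1, hmem B x hx.2⟩
  obtain ⟨x0, hx0⟩ := hne
  set V := (vectorSpan ℝ K).map (LinearMap.inl ℝ (Pt d) ℝ) with hV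
  have hVD : V ≤ D := by
    rw [hV, Submodule.map_le_iff_le_comap, vectorSpan_def, Submodule.span_le]
    intro y hy
    rw [Set.mem_vsub] at hy
    obtain ⟨a, ha, b, hb, rfl⟩ := hy
    have h1 := Submodule.sub_mem _ (hKD a ha) (hKD b hb)
    have h2 : lift a - lift b = LinearMap.inl ℝ (Pt d) ℝ (a -ᵥ b) := by
      simp [lift, vsub_eq_sub]
    rw [h2] at h1
    exact h1
  have hVlt : V < D := by
    refine lt_of_le_of_ne hVD ?_
    intro heq
    have h1 := hKD x0 hx0
    rw [← heq, hV, Submodule.mem_map] at h1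
    obtain ⟨y, -, hy⟩ := h1
    have := congrArg Prod.snd hy
    simp [lift] at this
  have h3 := Submodule.finrank_lt_finrank_of_lt hVlt
  have h4 : Module.finrank ℝ V = Module.finrank ℝ (vectorSpan ℝ K) :=
    (Submodule.equivMapOfInjective _ LinearMap.inl_injective _).finrank_eq.symm
  omega

/-- the upper bound -/
theorem divisible_of_card {k d : ℕ} (hk : 2 ≤ k) (hkd : k < d) {S : Finset (Pt d)}
    (hK : KIndep k S) (hc : 2 * d + max 1 (k - 2) ≤ S.card) : Divisible k S := by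
  classical
  apply divisible_of
  have h1 := kInd_of hK
  have hr := rk_le S
  refine main_div (LinearMap.snd ℝ (Pt d) ℝ) hk _ S rfl (fun i _ => ?_) h1
    (h1.le_rk subset_rfl (by omega)) ?_
  · simp [lift]
  · rw [gb]
    split_ifs <;> omega

/-- the upper bound in codimension one -/
theorem divisible_of_card' {k d : ℕ} (hk : 2 ≤ k) (hkd : d = k + 1) {S : Finset (Pt d)}
    (hK : KIndep k S) (hc : 2 * d + 1 ≤ S.card) : Divisible k S := by
  classical
  apply divisible_of
  have h1 := kInd_of hK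
  have hr := rk_le S
  refine main_div (LinearMap.snd ℝ (Pt d) ℝ) hk _ S rfl (fun i _ => ?_) h1
    (h1.le_rk subset_rfl (by omega)) ?_
  · simp [lift]
  · rw [gb]
    split_ifs <;> omega

end Pool.Agent.H36.DV
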