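import Pool.Agent.H36.DV.Thm

/-!
The general case, by induction on the number of members.
-/

set_option linter.unusedSectionVars false

namespace Pool.Agent.H36.DV

open Finset

variable {ι W : Type*} [DecidableEq ι] [AddCommGroup W] [Module ℝ W]

/-- two disjoint parts in a signed relation whose spans have a large intersection -/
def DivS (v : ι → W) (S : Finset ι) (k : ℕ) : Prop :=
  ∃ P Q, P ⊆ S ∧ Q ⊆ S ∧ Disjoint P Q ∧
    (∃ l, IsRel v (P ∪ Q) l ∧ (∀ i ∈ P, 0 < l i) ∧ (∀ i ∈ Q, l i < 0)) ∧
    rk v (P ∪ Q) + k + 1 ≤ rk v P + rk v Q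

lemma DivS.mono {v : ι → W} {S T : Finset ι} {k : ℕ} (h : DivS v T k) (hT : T ⊆ S) :
    DivS v S k := by
  obtain ⟨P, Q, hP, hQ, h⟩ := h
  exact ⟨P, Q, hP.trans hT, hQ.trans hT, h⟩

lemma DivS.of_tope {v : ι → W} {S P : Finset ι} {k : ℕ} (hP : IsTope v S P)
    (h : rk v S + k + 1 ≤ rk v P + rk v (S \ P)) : DivS v S k := by
  have hu := union_compl hP.1
  refine ⟨P, S \ P, hP.1, sdiff_subset, disjoint_sdiff, ?_, by rwa [hu]⟩
  rw [hu]
  obtain ⟨-, l, hl, h1, h2⟩ := hP
  exact ⟨l, hl, h1, fun i hi => h2 i (mem_sdiff.mp hi).1 (mem_sdiff.mp hi).2⟩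

/-- the threshold -/
def gb (k R : ℕ) : ℕ :=
  if R ≤ k + 1 then 2 * k + 2 else if R = k + 2 then 2 * k + 3 else 2 * (R - 1) + max 1 (k - 2)

/-- extending a tope by a small multiple of a relation -/
lemma tope_extend {v : ι → W} {S T P : Finset ι} (hT : T ⊆ S) (hP : IsTope v T P) {l : ι → ℝ}
    (hl : IsRel v S l) {i j : ι} (hS : S = insert i (insert j T)) (hiT : i ∉ T) (hjT : j ∉ T)
    (hi : l i < 0) (hj : 0 < l j) : IsTope v S (insert j P) := by
  classical
  obtain ⟨hPT, m, hm, hmp, hmn⟩ := hP
  have ev1 : ∀ᶠ e in nhdsWithin (0 : ℝ) (Set.Ioi 0), ∀ a ∈ P, 0 < m a + e * l a := by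
    rw [Filter.eventually_all_finset]
    intro a ha
    apply Filter.Eventually.filter_mono nhdsWithin_le_nhds
    have : Filter.Tendsto (fun e : ℝ => m a + e * l a) (nhds 0) (nhds (m a + 0 * l a)) := by
      apply Continuous.tendsto
      fun_prop
    rw [zero_mul, add_zero] at this
    exact this.eventually_const_lt (hmp a ha)
  have ev2 : ∀ᶠ e in nhdsWithin (0 : ℝ) (Set.Ioi 0), ∀ a ∈ T \ P, m a + e * l a < 0 := by
    rw [Filter.eventually_all_finset]
    intro a ha
    rw [mem_sdiff] at ha
    apply Filter.Eventually.filter_mono nhdsWithin_le_nhds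
    have : Filter.Tendsto (fun e : ℝ => m a + e * l a) (nhds 0) (nhds (m a + 0 * l a)) := by
      apply Continuous.tendsto
      fun_prop
    rw [zero_mul, add_zero] at this
    exact this.eventually_lt_const (hmn a ha.1 ha.2)
  obtain ⟨e, he1, he2, he0⟩ := (ev1.and (ev2.and self_mem_nhdsWithin)).exists
  have he0 : 0 < e := he0
  have hjS : j ∈ S := by rw [hS]; simp
  refine ⟨insert_subset hjS (hPT.trans hT), m + e • l, (hm.mono hT).add (hl.smul e), ?_, ?_⟩
  · intro a ha
    rw [mem_insert] at ha
    simp only [Pi.add_apply, Pi.smul_apply, smul_eq_mul]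
    rcases ha with rfl | ha
    · rw [hm.1 _ hjT, zero_add]
      exact mul_pos he0 hj
    · exact he1 a ha
  · intro a ha ha'
    rw [mem_insert, not_or] at ha'
    simp only [Pi.add_apply, Pi.smul_apply, smul_eq_mul]
    rw [hS, mem_insert, mem_insert] at ha
    rcases ha with rfl | rfl | ha
    · rw [hm.1 _ hiT, zero_add]
      exact mul_neg_of_pos_of_neg he0 hi
    · exact absurd rfl ha'.1
    · exact he2 a (mem_sdiff.mpr ⟨ha, ha'.2⟩)

section pair

variable {v : ι → W} {S T : Finset ι} {k : ℕ} {i j : ι}

/-- general position -/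
lemma sp_gen (hK : KInd v T k) (hR : rk v T = k + 1) {A : Finset ι} (hA : A ⊆ T)
    (hc : k + 1 ≤ A.card) : sp v A = sp v T := by
  apply sp_eq_of_rk v hA
  rw [hR]
  exact hK.le_rk hA hc

lemma sp_update {A : Finset ι} {w : W} (h : j ∉ A) : sp (Function.update v j w) A = sp v A := by
  have : Function.update v j w '' (A : Set ι) = v '' (A : Set ι) := by
    apply Set.image_congr
    intro a ha
    rw [Function.update_of_ne]
    rintro rfl
    exact h ha
  rw [sp, sp, this]

lemma rk_update {A : Finset ι} {w : W} (h : j ∉ A) : rk (Function.update v j w) A = rk v A := by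
  rw [rk_def, rk_def, sp_update h]

/-- transfer from the family with `v i, v j` merged -/
lemma transfer (hS : S = insert i (insert j T)) (hiT : i ∉ T) (hjT : j ∉ T) (hij : i ≠ j)
    {c : ℝ} (hc : 0 < c) (hw : v j + c • v i ∈ sp v T) (hi : v i ∉ sp v T)
    {P : Finset ι} (hP : IsTope (Function.update v j (v j + c • v i)) (insert j T) P)
    (hjP : j ∈ P) :
    IsTope v S (insert i P) ∧
      rk (Function.update v j (v j + c • v i)) P +
        rk (Function.update v j (v j + c • v i)) (insert j T \ P) + 1 ≤
      rk v (insert i P) + rk v (S \ insert i P) := by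
  classical
  set v' := Function.update v j (v j + c • v i) with hv'
  obtain ⟨hPT, m, hm, hmp, hmn⟩ := hP
  have hiP : i ∉ P := by
    intro h
    have := hPT h
    rw [mem_insert] at this
    rcases this with h | h
    · exact hij h
    · exact hiT h
  have hiT' : i ∉ insert j T := by
    rw [mem_insert, not_or]; exact ⟨hij, hiT⟩
  have hcompl : S \ insert i P = insert j T \ P := by
    rw [hS]
    ext x
    simp only [mem_sdiff, mem_insert, not_or]
    constructor
    · rintro ⟨h1, h2, h3⟩
      rcases h1 with h1 | h1
      · exact absurd h1 h2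
      · exact ⟨h1, h3⟩
    · rintro ⟨h1, h2⟩
      refine ⟨Or.inr h1, ?_, h2⟩
      rintro rfl
      exact hiT' (mem_insert.mpr h1)
  constructor
  · refine ⟨?_, Function.update m i (m j * c), ⟨?_, ?_⟩, ?_, ?_⟩
    · rw [hS]
      exact insert_subset_insert i hPT
    · intro a ha
      rw [hS, mem_insert, not_or] at ha
      rw [Function.update_of_ne ha.1, hm.1 a ha.2]
    · rw [hS, sum_insert hiT', sum_insert hjT, Function.update_self,
        Function.update_of_ne hij.symm]
      have h1 := hm.2
      rw [sum_insert hjT] at h1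
      have h2 : v' j = v j + c • v i := by simp [hv']
      rw [h2] at h1
      have h3 : ∑ x ∈ T, Function.update m i (m j * c) x • v x = ∑ x ∈ T, m x • v' x := by
        refine sum_congr rfl fun x hx => ?_
        have hxi : x ≠ i := fun h => hiT (h ▸ hx)
        have hxj : x ≠ j := fun h => hjT (h ▸ hx)
        rw [Function.update_of_ne hxi, hv', Function.update_of_ne hxj]
      rw [h3, ← h1, smul_add, smul_smul]
      abel
    · intro a ha
      rw [mem_insert] at ha
      rcases ha with rfl | ha
      · rw [Function.update_self]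
        exact mul_pos (hmp j hjP) hc
      · rw [Function.update_of_ne (by rintro rfl; exact hiP ha)]
        exact hmp a ha
    · intro a ha ha'
      rw [mem_insert, not_or] at ha'
      rw [hS, mem_insert] at ha
      rw [Function.update_of_ne ha'.1]
      exact hmn a (ha.resolve_left ha'.1) ha'.2
  · have h1 : rk v' (insert j T \ P) = rk v (S \ insert i P) := by
      rw [hcompl]
      exact rk_update (by simp [hjP])
    have hle : sp v' P ≤ sp v T := by
      rw [sp, Submodule.span_le]
      rintro x ⟨a, ha, rfl⟩
      have := hPT ha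
      rw [mem_insert] at this
      by_cases haj : a = j
      · subst haj
        simpa [hv'] using hw
      · rw [hv', Function.update_of_ne haj]
        exact mem_sp v (this.resolve_left haj)
    have hle2 : sp v' P ≤ sp v (insert i P) := by
      rw [sp, Submodule.span_le]
      rintro x ⟨a, ha, rfl⟩
      by_cases haj : a = j
      · subst haj
        have : v' a = v a + c • v i := by simp [hv']
        rw [SetLike.mem_coe, this]
        exact Submodule.add_mem _ (mem_sp v (mem_insert_of_mem hjP))
          (Submodule.smul_mem _ _ (mem_sp v (mem_insert_self _ _)))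
      · rw [hv', Function.update_of_ne haj]
        exact mem_sp v (mem_insert_of_mem ha)
    have hlt : sp v' P < sp v (insert i P) := by
      refine lt_of_le_of_ne hle2 ?_
      intro heq
      exact hi (hle (heq ▸ mem_sp v (mem_insert_self i P)))
    have h2 : rk v' P < rk v (insert i P) := Submodule.finrank_lt_finrank_of_lt hlt
    omega

/-- the critical pair -/
lemma pair_case (h : W →ₗ[ℝ] ℝ) (hk : 2 ≤ k) (hpos : ∀ i ∈ S, 0 < h (v i)) (hK : KInd v S k)
    (hS : S = insert i (insert j T)) (hiT : i ∉ T) (hjT : j ∉ T) (hij : i ≠ j)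
    (hR : rk v S = k + 2) (hRT : rk v T = k + 1) (hc : T.card = 2 * k + 1)
    (hi : v i ∉ sp v T) (hj : v j ∉ sp v T) (hji : v j ∈ sp v (insert i T)) : DivS v S k := by
  classical
  have hTS : T ⊆ S := by
    rw [hS]
    exact (subset_insert _ _).trans (subset_insert _ _)
  have hiS : i ∈ S := by rw [hS]; simp
  have hjS : j ∈ S := by rw [hS]; simp
  have hKT : KInd v T k := hK.mono hTS
  have hiT' : i ∉ insert j T := by
    rw [mem_insert, not_or]; exact ⟨hij, hiT⟩
  have hjT' : j ∉ insert i T := by
    rw [mem_insert, not_or]; exact ⟨hij.symm, hjT⟩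
  obtain ⟨l, hl, hlj⟩ := exists_rel_of_mem_span hjT' hji
  have hSS : insert j (insert i T) = S := by rw [hS, insert_comm]
  rw [hSS] at hl
  have hli : l i ≠ 0 := by
    intro h0
    have hl' : IsRel v (insert j T) l := hl.of_supp (by
      rw [hS]; exact subset_insert _ _) (by
      intro a ha
      by_cases hai : a = i
      · rw [hai, h0]
      · apply hl.1
        rw [hS, mem_insert, not_or]
        exact ⟨hai, ha⟩)
    have := hl'.mem_span (j := j) (by rw [hlj]; norm_num)
    rw [erase_insert hjT] at this
    exact hj this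
  have hsimpT : ∀ a b, sp v ((T.erase a).erase b) = sp v T := by
    intro a b
    apply sp_gen hKT hRT
    · exact (erase_subset _ _).trans (erase_subset _ _)
    · have h1 := Finset.pred_card_le_card_erase (s := T) (a := a)
      have h2 := Finset.pred_card_le_card_erase (s := T.erase a) (a := b)
      omega
  rcases lt_or_gt_of_ne hli with hneg | hpos'
  · -- mixed case
    have hsT : Simple v T := ⟨by omega, fun a _ b hb _ => by
      have := hsimpT a b
      rw [sp] at this
      rw [this]
      exact mem_sp v hb⟩
    obtain ⟨P, hP, hPr⟩ := T1 h hsT (fun a ha => hpos a (hTS ha)) hKT hRT (t := k - 1)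
      (by omega) (by omega)
    have htope := tope_extend hTS hP hl hS hiT hjT hneg (by rw [hlj]; norm_num)
    apply DivS.of_tope htope
    have hPT := hP.1
    have h1 : rk v (insert j P) = rk v P + 1 :=
      rk_insert_of_notMem v fun h' => hj (sp_mono v hPT h')
    have hcompl : S \ insert j P = insert i (T \ P) := by
      rw [hS]
      ext x
      simp only [mem_sdiff, mem_insert, not_or]
      constructor
      · rintro ⟨h1, h2, h3⟩
        rcases h1 with h1 | h1 | h1
        · exact Or.inl h1
        · exact absurd h1 h2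
        · exact Or.inr ⟨h1, h3⟩
      · rintro (rfl | ⟨h1, h2⟩)
        · exact ⟨Or.inl rfl, hij, fun h => hiT (hPT h)⟩
        · exact ⟨Or.inr (Or.inr h1), fun h => hjT (h ▸ h1), h2⟩
    have h2 : rk v (S \ insert j P) = rk v (T \ P) + 1 := by
      rw [hcompl]
      exact rk_insert_of_notMem v fun h' => hi (sp_mono v sdiff_subset h')
    omega
  · -- pure case
    set w := v j + l i • v i with hwdef
    have hw : w ∈ sp v T := by
      have h1 := hl.2
      rw [hS, sum_insert hiT', sum_insert hjT, hlj, one_smul] at h1
      have h2 : w = - ∑ x ∈ T, l x • v x := by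
        rw [eq_neg_iff_add_eq_zero, ← h1, hwdef]
        abel
      rw [h2]
      exact Submodule.neg_mem _ (Submodule.sum_mem _ fun x hx =>
        Submodule.smul_mem _ _ (mem_sp v hx))
    set v' := Function.update v j w with hv'
    have hv'T : ∀ A, A ⊆ T → sp v' A = sp v A := fun A hA => sp_update fun h => hjT (hA h)
    have hv'mem : ∀ b ∈ insert j T, v' b ∈ sp v T := by
      intro b hb
      by_cases hbj : b = j
      · subst hbj
        simpa [hv'] using hw
      · rw [hv', Function.update_of_ne hbj]
        exact mem_sp v ((mem_insert.mp hb).resolve_left hbj)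
    have hsp' : sp v' (insert j T) = sp v T := by
      apply le_antisymm
      · rw [sp, Submodule.span_le]
        rintro x ⟨b, hb, rfl⟩
        exact hv'mem b hb
      · rw [← hv'T T subset_rfl]
        exact sp_mono v' (subset_insert _ _)
    have hcs : (insert j T).card = 2 * k + 2 := by rw [card_insert_of_notMem hjT, hc]
    have hs' : Simple v' (insert j T) := by
      refine ⟨by omega, fun a _ b hb _ => ?_⟩
      have h1 := hv'mem b hb
      rw [← hsimpT a b, ← hv'T _ ((erase_subset _ _).trans (erase_subset _ _))] at h1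
      exact sp_mono v' (erase_subset_erase _ (erase_subset_erase _ (subset_insert _ _))) h1
    have hpos2 : ∀ a ∈ insert j T, 0 < h (v' a) := by
      intro a ha
      by_cases haj : a = j
      · subst haj
        have : v' a = v a + l i • v i := by simp [hv', hwdef]
        rw [this, map_add, map_smul, smul_eq_mul]
        exact add_pos (hpos _ hjS) (mul_pos hpos' (hpos _ hiS))
      · rw [hv', Function.update_of_ne haj]
        exact hpos a (hTS ((mem_insert.mp ha).resolve_left haj))
    have hK' : KInd v' ((insert j T).erase j) k := by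
      rw [erase_insert hjT]
      intro J hJ hcJ
      rw [rk_def, hv'T J hJ]
      exact hKT J hJ hcJ
    have hR' : rk v' (insert j T) = k + 1 := by
      rw [rk_def, hsp']
      exact hRT
    obtain ⟨P, hP, hPr⟩ := T1s h hs' hpos2 (mem_insert_self _ _) hK' hR' hcs
    by_cases hjP : j ∈ P
    · obtain ⟨h1, h2⟩ := transfer hS hiT hjT hij hpos' hw hi hP hjP
      rw [← hwdef, ← hv'] at h2
      apply DivS.of_tope h1
      omega
    · have hjP' : j ∈ insert j T \ P := mem_sdiff.mpr ⟨mem_insert_self _ _, hjP⟩
      obtain ⟨h1, h2⟩ := transfer hS hiT hjT hij hpos' hw hi hP.compl hjP'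
      apply DivS.of_tope h1
      rw [Finset.sdiff_sdiff_eq_self hP.1, ← hwdef, ← hv'] at h2
      omega

end pair

/-- **Main theorem** (vector form). -/
theorem main_div {v : ι → W} (h : W →ₗ[ℝ] ℝ) {k : ℕ} (hk : 2 ≤ k) :
    ∀ n, ∀ S : Finset ι, S.card = n → (∀ i ∈ S, 0 < h (v i)) → KInd v S k → k + 1 ≤ rk v S →
      gb k (rk v S) ≤ S.card → DivS v S k := by
  classical
  intro n
  induction n using Nat.strong_induction_on with
  | _ n ih =>
  intro S hn hpos hK hR hg
  have hrc := rk_le_card v S
  by_cases hs : Simple v S
  · rcases Nat.lt_or_ge (k + 1) (rk v S) with h1 | h1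
    · rcases Nat.lt_or_ge (k + 2) (rk v S) with h2 | h2
      · have hg' : 2 * (rk v S - 1) + max 1 (k - 2) ≤ S.card := by
          rw [gb, if_neg (by omega), if_neg (by omega)] at hg
          exact hg
        obtain ⟨P, hP, hPr⟩ := T3 h hs hpos hK (by omega) (by omega)
        exact DivS.of_tope hP hPr
      · have hg' : 2 * k + 3 ≤ S.card := by
          rw [gb, if_neg (by omega), if_pos (by omega)] at hg
          exact hg
        obtain ⟨P, hP, hPr⟩ := T2 h hs hpos hK (by omega) hg'
        exact DivS.of_tope hP hPr
    · have hg' : 2 * k + 2 ≤ S.card := by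
        rw [gb, if_pos (by omega)] at hg
        exact hg
      obtain ⟨P, hP, hPr⟩ := T1 h hs hpos hK (by omega) (t := k) le_rfl (by omega)
      exact DivS.of_tope hP (by omega)
  · -- not simple
    have hgc : 2 * k + 2 ≤ S.card := by
      refine le_trans ?_ hg
      rw [gb]
      split_ifs <;> omega
    rw [Simple, not_and] at hs
    have hs' := hs (by omega)
    push Not at hs'
    obtain ⟨i, hi, j, hj, hij, hnot⟩ := hs'
    by_cases hj' : v j ∈ sp v (S.erase j)
    · -- a pair
      set T := (S.erase j).erase i with hT
      have hTT : (S.erase i).erase j = T := by rw [hT, erase_right_comm]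
      rw [hTT] at hnot
      have hspj : sp v (S.erase j) = sp v S := sp_erase v hj hj'
      have hiSj : i ∈ S.erase j := mem_erase.mpr ⟨hij, hi⟩
      have hi' : v i ∉ sp v T := by
        intro hmem
        have := sp_erase v hiSj hmem
        rw [← hT] at this
        apply hnot
        show v j ∈ sp v T
        rw [this]
        exact hj'
      have hrT : rk v S = rk v T + 1 := by
        rw [← rk_congr hspj, ← insert_erase hiSj, rk_insert_of_notMem v hi']
      have hcT : T.card + 2 = S.card := by
        rw [hT, card_erase_of_mem hiSj, card_erase_of_mem hj]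
        omega
      have hTS : T ⊆ S := (erase_subset _ _).trans (erase_subset _ _)
      have hKT := hK.mono hTS
      have hrT' : k + 1 ≤ rk v T := hKT.le_rk subset_rfl (by omega)
      by_cases hcase : rk v S = k + 2 ∧ S.card = 2 * k + 3
      · have hSeq : S = insert i (insert j T) := by
          rw [insert_comm, hT, insert_erase hiSj, insert_erase hj]
        refine pair_case h hk hpos hK hSeq ?_ ?_ hij hcase.1 (by omega) (by omega) hi' hnot ?_
        · rw [hT]; exact notMem_erase _ _
        · rw [hT]; simp
        · show v j ∈ sp v (insert i T)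
          rw [hT, insert_erase hiSj]
          exact hj'
      · refine (ih T.card (by omega) T rfl (fun a ha => hpos a (hTS ha)) hKT hrT' ?_).mono hTS
        rw [gb] at hg ⊢
        split_ifs at hg ⊢ <;> omega
    · -- one element
      have hrT : rk v S = rk v (S.erase j) + 1 := by
        rw [← rk_insert_of_notMem v hj', insert_erase hj]
      have hcT := card_erase_of_mem hj
      have hTS : S.erase j ⊆ S := erase_subset _ _
      have hKT := hK.mono hTS
      have hrT' : k + 1 ≤ rk v (S.erase j) := hKT.le_rk subset_rfl (by omega)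
      refine (ih (S.erase j).card (by omega) (S.erase j) rfl (fun a ha => hpos a (hTS ha)) hKT
        hrT' ?_).mono hTS
      rw [gb] at hg ⊢
      split_ifs at hg ⊢ <;> omega

end Pool.Agent.H36.DV
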