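import Pool.Agent.H36.DV.Geo

/-!
Lower bounds.
-/

set_option linter.unusedSectionVars false

namespace Pool.Agent.H36.DV

open Finset Polynomial

/-- Vandermonde, in the form of power sums -/
lemma vand {Z : Finset ℕ} {n : ℕ} (hZ : Z.card ≤ n) {L : ℕ → ℝ}
    (h : ∀ t < n, ∑ s ∈ Z, L s * (s : ℝ) ^ t = 0) : ∀ s ∈ Z, L s = 0 := by
  intro s0 hs0
  set p : ℝ[X] := ∏ s ∈ Z.erase s0, (X - C (s : ℝ)) with hp
  have hdeg : p.natDegree = (Z.erase s0).card := by
    rw [hp, natDegree_prod_of_monic _ _ fun s _ => monic_X_sub_C _,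
      sum_congr rfl (fun s _ => natDegree_X_sub_C _)]
    simp
  have hpos : 0 < Z.card := card_pos.mpr ⟨s0, hs0⟩
  have hdlt : p.natDegree < n := by
    rw [hdeg, card_erase_of_mem hs0]
    omega
  have h1 : ∑ s ∈ Z, L s * p.eval (s : ℝ) = 0 := by
    have h2 : ∀ s ∈ Z, L s * p.eval (s : ℝ)
        = ∑ t ∈ range n, p.coeff t * (L s * (s : ℝ) ^ t) := by
      intro s _
      rw [eval_eq_sum_range' hdlt, mul_sum]
      exact sum_congr rfl fun t _ => by ring
    rw [sum_congr rfl h2, sum_comm]
    apply sum_eq_zero
    intro t ht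
    rw [← mul_sum, h t (mem_range.mp ht), mul_zero]
  rw [← add_sum_erase Z _ hs0] at h1
  have h3 : ∑ s ∈ Z.erase s0, L s * p.eval (s : ℝ) = 0 := by
    apply sum_eq_zero
    intro s hs
    have : p.eval (s : ℝ) = 0 := by
      rw [hp, eval_prod]
      exact prod_eq_zero hs (by simp)
    rw [this, mul_zero]
  rw [h3, add_zero] at h1
  have h4 : p.eval (s0 : ℝ) ≠ 0 := by
    rw [hp, eval_prod, prod_ne_zero_iff]
    intro s hs
    rw [mem_erase] at hs
    simp only [eval_sub, eval_X, eval_C]
    rw [sub_ne_zero]
    exact_mod_cast hs.1.symm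
  exact (mul_eq_zero.mp h1).resolve_right h4

open Classical in
/-- `k`-independence of an image -/
lemma kIndep_image {α : Type*} {k d : ℕ} {I : Finset α} {f : α → Pt d}
    (hf : Set.InjOn f (I : Set α))
    (h : ∀ J ⊆ I, J.card ≤ k + 1 → ∀ l : α → ℝ, ∑ i ∈ J, l i = 0 → ∑ i ∈ J, l i • f i = 0 →
      ∀ i ∈ J, l i = 0) : KIndep k (I.image f) := by
  intro T hT hc
  rw [subset_image_iff] at hT
  obtain ⟨J, hJ, rfl⟩ := hT
  have hJI : J ⊆ I := by exact_mod_cast hJ
  have hinj : Set.InjOn f (J : Set α) := hf.mono hJ
  rw [card_image_of_injOn hinj] at hc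
  rw [affineIndependent_iff]
  intro s w hw1 hw2 i hi
  -- extend by zero
  set l : α → ℝ := fun a => if ha : f a ∈ J.image f then
    (if (⟨f a, ha⟩ : {x // x ∈ J.image f}) ∈ s then w ⟨f a, ha⟩ else 0) else 0 with hl
  have key : ∀ (F : Pt d → ℝ → Pt d × ℝ), (∀ p, F p 0 = 0) →
      ∑ a ∈ J, F (f a) (l a) = ∑ i ∈ s, F (i : Pt d) (w i) := by
    intro F hF
    have h1 : ∑ i ∈ s, F (i : Pt d) (w i)
        = ∑ i : {x // x ∈ J.image f}, F (i : Pt d) (if i ∈ s then w i else 0) := by
      rw [← sum_subset (subset_univ s)]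
      · exact sum_congr rfl fun i hi => by rw [if_pos hi]
      · intro x _ hx
        rw [if_neg hx, hF]
    have h2 : ∑ i : {x // x ∈ J.image f}, F (i : Pt d) (if i ∈ s then w i else 0)
        = ∑ p ∈ J.image f, (if hp : p ∈ J.image f then
          F p (if (⟨p, hp⟩ : {x // x ∈ J.image f}) ∈ s then w ⟨p, hp⟩ else 0) else 0) := by
      rw [← sum_coe_sort (J.image f)]
      refine sum_congr rfl fun i _ => ?_
      rw [dif_pos i.2]
    rw [h1, h2, sum_image hinj]
    refine sum_congr rfl fun a ha => ?_
    have ha' : f a ∈ J.image f := mem_image_of_mem _ ha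
    rw [dif_pos ha', hl]
    simp only [dif_pos ha']
  have k1 : ∑ a ∈ J, l a = 0 := by
    have := key (fun _ c => (0, c)) (fun _ => rfl)
    have := congrArg Prod.snd this
    rw [Prod.snd_sum, Prod.snd_sum] at this
    exact this.trans hw1
  have k2 : ∑ a ∈ J, l a • f a = 0 := by
    have := key (fun p c => (c • p, 0)) (fun p => by simp)
    have := congrArg Prod.fst this
    rw [Prod.fst_sum, Prod.fst_sum] at this
    exact this.trans hw2
  obtain ⟨a, ha, hai⟩ := mem_image.mp i.2
  have h3 := h J hJI hc l k1 k2 a ha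
  have ha' : f a ∈ J.image f := mem_image_of_mem _ ha
  simp only [hl, dif_pos ha'] at h3
  have hii : (⟨f a, ha'⟩ : {x // x ∈ J.image f}) = i := Subtype.ext hai
  rwa [hii, if_pos hi] at h3

/-- the moment curve in the first coordinates -/
def mom (d : ℕ) (s : ℕ) : Pt d := WithLp.toLp 2 fun c : Fin d => (s : ℝ) ^ (c.val + 1)

lemma mom_apply {d : ℕ} (s : ℕ) (c : Fin d) : mom d s c = (s : ℝ) ^ (c.val + 1) := rfl

lemma mom_inj {d : ℕ} (hd : 1 ≤ d) : Function.Injective (mom d) := by
  intro s t h
  have := congrArg (fun p : Pt d => p ⟨0, hd⟩) h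
  simp only [mom_apply, zero_add, pow_one] at this
  exact_mod_cast this

lemma mom_indep {d : ℕ} {J : Finset ℕ} (hJ : J.card ≤ d + 1) {l : ℕ → ℝ} (h0 : ∑ i ∈ J, l i = 0)
    (h1 : ∑ i ∈ J, l i • mom d i = 0) : ∀ i ∈ J, l i = 0 := by
  apply vand hJ
  intro t ht
  rcases t with _ | t
  · simpa using h0
  · have := congrArg (fun p : Pt d => p ⟨t, by omega⟩) h1
    simpa [mom_apply] using this

open Classical in
/-- first example: points on the moment curve -/
theorem low1 {k d : ℕ} (hk : 2 ≤ k) (hkd : k < d) :
    ∃ S : Finset (Pt d), KIndep k S ∧ S.card = d + k + 1 ∧ ¬ Divisible k S := by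
  have hinj : Function.Injective (mom d) := mom_inj (by omega)
  refine ⟨(range (d + k + 1)).image (mom d), ?_, ?_, ?_⟩
  · apply kIndep_image hinj.injOn
    intro J _ hc l h0 h1
    exact mom_indep (by omega) h0 h1
  · rw [card_image_of_injective _ hinj, card_range]
  · set S := (range (d + k + 1)).image (mom d) with hS
    have hSc : S.card = d + k + 1 := by rw [hS, card_image_of_injective _ hinj, card_range]
    have hrS : d + 1 ≤ rk lift S := by
      have h1 : KIndep d ((range (d + 1)).image (mom d)) := by
        apply kIndep_image hinj.injOn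
        intro J _ hc l h0 h1
        exact mom_indep (by omega) h0 h1
      have h2 := (kInd_of h1).le_rk subset_rfl (by
        rw [card_image_of_injective _ hinj, card_range])
      refine h2.trans (rk_mono _ (image_subset_image ?_))
      intro x hx
      rw [mem_range] at hx ⊢
      omega
    rintro ⟨A, B, hAB, hdis, hne, hfin⟩
    have hA : A.Finite := S.finite_toSet.subset (hAB ▸ Set.subset_union_left)
    have hB : B.Finite := S.finite_toSet.subset (hAB ▸ Set.subset_union_right)
    obtain ⟨A, rfl⟩ := hA.exists_finset_coe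
    obtain ⟨B, rfl⟩ := hB.exists_finset_coe
    have hAB' : A ∪ B = S := by exact_mod_cast hAB
    have h1 := rk_of_inter hne hfin
    rw [hAB'] at h1
    have h2 := rk_le_card lift A
    have h3 := rk_le_card lift B
    have h4 : (A ∪ B).card = A.card + B.card := card_union_of_disjoint (by
      rw [← disjoint_coe]; exact hdis)
    rw [hAB'] at h4
    omega

/-- the points of the second example -/
def pt (k d : ℕ) (i : ℕ × ℤ) : Pt d := WithLp.toLp 2 fun c : Fin d =>
  if c.val < k - 1 then (i.1 : ℝ) ^ (c.val + 1) else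
    if c.val = k - 1 + (i.1 - k) then (i.2 : ℝ) else 0

lemma pt_apply {k d : ℕ} (i : ℕ × ℤ) (c : Fin d) : pt k d i c =
  if c.val < k - 1 then (i.1 : ℝ) ^ (c.val + 1) else
    if c.val = k - 1 + (i.1 - k) then (i.2 : ℝ) else 0 := rfl

/-- the index set of the second example -/
def idx (k d : ℕ) : Finset (ℕ × ℤ) :=
  (range k ×ˢ {0}) ∪ (Ico k (d + 1) ×ˢ {1, -1})

lemma mem_idx {k d : ℕ} {i : ℕ × ℤ} :
    i ∈ idx k d ↔ (i.1 < k ∧ i.2 = 0) ∨ (k ≤ i.1 ∧ i.1 < d + 1 ∧ (i.2 = 1 ∨ i.2 = -1)) := by
  rw [idx, mem_union, mem_product, mem_product, mem_range, mem_Ico]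
  simp only [mem_singleton, mem_insert]
  tauto

lemma card_idx {k d : ℕ} (hkd : k < d) : (idx k d).card = 2 * d + 2 - k := by
  rw [idx, card_union_of_disjoint, card_product, card_product, card_range, Nat.card_Ico]
  · simp
    omega
  · rw [Finset.disjoint_left]
    intro i hi hi'
    rw [mem_product, mem_range] at hi
    rw [mem_product, mem_Ico] at hi'
    omega

lemma pt_inj {k d : ℕ} (hk : 2 ≤ k) (hkd : k < d) :
    Set.InjOn (pt k d) (idx k d : Set (ℕ × ℤ)) := by
  intro i hi j hj h
  rw [mem_coe, mem_idx] at hi hj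
  have h1 : i.1 = j.1 := by
    have := congrArg (fun p : Pt d => p ⟨0, by omega⟩) h
    simp only [pt_apply] at this
    rw [if_pos (by omega), if_pos (by omega)] at this
    simpa using this
  refine Prod.ext h1 ?_
  by_cases hik : i.1 < k
  · have e1 : i.2 = 0 := by
      rcases hi with h | h
      · exact h.2
      · omega
    have e2 : j.2 = 0 := by
      rcases hj with h | h
      · exact h.2
      · omega
    rw [e1, e2]
  · have hd1 : i.1 < d + 1 := by
      rcases hi with h | h
      · omega
      · exact h.2.1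
    have this : pt k d i ⟨k - 1 + (i.1 - k), by omega⟩ = pt k d j ⟨k - 1 + (i.1 - k), by omega⟩ := by
      rw [h]
    rw [pt_apply, pt_apply, if_neg (by simp), if_pos rfl, if_neg (by simp),
      if_pos (by simp [h1])] at this
    exact Int.cast_injective this

/-- coordinates of a combination -/
lemma comb_apply {k d : ℕ} (J : Finset (ℕ × ℤ)) (l : ℕ × ℤ → ℝ) (c : Fin d) :
    (∑ i ∈ J, l i • pt k d i) c = ∑ i ∈ J, l i * pt k d i c := by
  simp

/-- the coordinates outside of the moment part -/
lemma comb_pair {k d : ℕ} (hk : 2 ≤ k) {J : Finset (ℕ × ℤ)} (hJ : J ⊆ idx k d)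
    (l : ℕ × ℤ → ℝ) {s : ℕ} (hs : k ≤ s) (hsd : s < d + 1) :
    (∑ i ∈ J, l i • pt k d i) ⟨k - 1 + (s - k), by omega⟩
      = ∑ i ∈ J, if i.1 = s then l i * i.2 else 0 := by
  rw [comb_apply]
  refine sum_congr rfl fun i hi => ?_
  rw [pt_apply, if_neg (by simp)]
  have hi' := mem_idx.mp (hJ hi)
  by_cases his : i.1 = s
  · rw [if_pos his, if_pos (by rw [his])]
  · rw [if_neg his]
    by_cases hc : k - 1 + (s - k) = k - 1 + (i.1 - k)
    · rw [if_pos hc]
      have : i.2 = 0 := by
        rcases hi' with h | h
        · exact h.2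
        · omega
      rw [this]; simp
    · rw [if_neg hc, mul_zero]

lemma pt_indep {k d : ℕ} (hk : 2 ≤ k) (hkd : k < d) {J : Finset (ℕ × ℤ)} (hJ : J ⊆ idx k d)
    (hc : J.card ≤ k + 1) {l : ℕ × ℤ → ℝ} (h0 : ∑ i ∈ J, l i = 0)
    (h1 : ∑ i ∈ J, l i • pt k d i = 0) : ∀ i ∈ J, l i = 0 := by
  classical
  -- the pair relations
  have hpair : ∀ s, k ≤ s → ∑ i ∈ J with i.1 = s, l i * (i.2 : ℝ) = 0 := by
    intro s hs
    rw [sum_filter]
    by_cases hsd : s < d + 1
    · rw [← comb_pair hk hJ l hs hsd, h1]
      rfl
    · apply sum_eq_zero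
      intro i hi
      rw [if_neg]
      intro h
      have := mem_idx.mp (hJ hi)
      omega
  set L : ℕ → ℝ := fun s => ∑ i ∈ J with i.1 = s, l i with hL
  set Z : Finset ℕ := (J.image Prod.fst).filter fun s => L s ≠ 0 with hZ
  -- power sums
  have hpow : ∀ t < k, ∑ i ∈ J, l i * (i.1 : ℝ) ^ t = 0 := by
    intro t ht
    rcases t with _ | t
    · simpa using h0
    · have := congrArg (fun p : Pt d => p ⟨t, by omega⟩) h1
      simp only at this
      rw [comb_apply] at this
      have h2 : ∀ i ∈ J, l i * pt k d i ⟨t, by omega⟩ = l i * (i.1 : ℝ) ^ (t + 1) := by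
        intro i _
        rw [pt_apply, if_pos (by simp; omega)]
      rw [sum_congr rfl h2] at this
      rw [this]; rfl
  have hgroup : ∀ t < k, ∑ s ∈ Z, L s * (s : ℝ) ^ t = 0 := by
    intro t ht
    have h2 : ∑ s ∈ J.image Prod.fst, L s * (s : ℝ) ^ t = ∑ i ∈ J, l i * (i.1 : ℝ) ^ t := by
      rw [← sum_fiberwise_of_maps_to (g := Prod.fst) (t := J.image Prod.fst)
        (fun i hi => mem_image_of_mem _ hi)]
      refine sum_congr rfl fun s _ => ?_
      rw [hL, sum_mul]
      refine sum_congr rfl fun i hi => ?_
      rw [(mem_filter.mp hi).2]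
    rw [← hpow t ht, ← h2]
    apply sum_subset (filter_subset _ _)
    intro s hs hs'
    have : L s = 0 := by
      by_contra hne
      exact hs' (mem_filter.mpr ⟨hs, hne⟩)
    rw [this, zero_mul]
  -- a nonzero value at a heavy parameter needs both members
  have hboth : ∀ s, k ≤ s → L s ≠ 0 → (s, (1 : ℤ)) ∈ J ∧ (s, (-1 : ℤ)) ∈ J := by
    intro s hs hne
    have hsub : J.filter (fun i => i.1 = s) ⊆ {(s, (1 : ℤ)), (s, (-1 : ℤ))} := by
      intro i hi
      rw [mem_filter] at hi
      have := mem_idx.mp (hJ hi.1)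
      rw [mem_insert, mem_singleton]
      rcases this with h | ⟨-, -, h | h⟩
      · omega
      · exact Or.inl (Prod.ext hi.2 h)
      · exact Or.inr (Prod.ext hi.2 h)
    have hp := hpair s hs
    by_contra hcon
    rw [not_and_or] at hcon
    apply hne
    rw [hL]
    have hLs : ∀ x : ℤ, (x = 1 ∨ x = -1) → (s, -x) ∉ J →
        (∑ i ∈ J with i.1 = s, l i) = (∑ i ∈ J with i.1 = s, l i * (i.2 : ℝ)) * x := by
      intro x hx hnot
      rw [sum_mul]
      refine sum_congr rfl fun i hi => ?_
      have h3 := hsub hi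
      have h4 : i ≠ (s, -x) := by
        rintro rfl
        exact hnot (mem_filter.mp hi).1
      rw [mem_insert, mem_singleton] at h3
      rcases hx with rfl | rfl
      · rcases h3 with rfl | rfl
        · simp
        · exact absurd rfl h4
      · rcases h3 with rfl | rfl
        · exact absurd (by simp) h4
        · simp
    rcases hcon with h | h
    · have := hLs (-1) (Or.inr rfl) (by simpa using h)
      simp only
      rw [this, hp, zero_mul]
    · have := hLs 1 (Or.inl rfl) h
      simp only
      rw [this, hp, zero_mul]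
  have hZc : Z.card ≤ k := by
    by_cases hall : ∀ s ∈ Z, s < k
    · have : Z ⊆ range k := fun s hs => mem_range.mpr (hall s hs)
      simpa using card_le_card this
    · push Not at hall
      obtain ⟨s, hs, hsk⟩ := hall
      obtain ⟨b1, b2⟩ := hboth s hsk (mem_filter.mp hs).2
      have h2 : (J.image Prod.fst).card < J.card := by
        apply lt_of_le_of_ne card_image_le
        intro heq
        rw [card_image_iff] at heq
        have := heq b1 b2 rfl
        simp at this
      have h3 : Z.card ≤ (J.image Prod.fst).card := card_filter_le _ _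
      omega
  have hLz : ∀ s ∈ Z, L s = 0 := vand hZc hgroup
  have hZe : ∀ s, L s = 0 := by
    intro s
    by_contra hne
    by_cases hs : s ∈ J.image Prod.fst
    · exact hne (hLz s (mem_filter.mpr ⟨hs, hne⟩))
    · apply hne
      rw [hL]
      apply sum_eq_zero
      intro i hi
      rw [mem_filter] at hi
      exact absurd (hi.2 ▸ mem_image_of_mem _ hi.1) hs
  intro i hi
  have hi' := mem_idx.mp (hJ hi)
  rcases hi' with ⟨h2, h3⟩ | ⟨h2, h3, h4⟩
  · -- light
    have h5 := hZe i.1
    have h6 : J.filter (fun j => j.1 = i.1) = {i} := by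
      ext j
      rw [mem_filter, mem_singleton]
      constructor
      · rintro ⟨hj, hji⟩
        have := mem_idx.mp (hJ hj)
        refine Prod.ext hji ?_
        rcases this with h | h
        · rw [h.2, h3]
        · omega
      · rintro rfl
        exact ⟨hi, rfl⟩
    simp only [hL] at h5
    rw [h6, sum_singleton] at h5
    exact h5
  · have h5 := hZe i.1
    have h6 := hpair i.1 h2
    simp only [hL] at h5
    -- combine
    have h7 : ∑ j ∈ J with j.1 = i.1, l j * (1 + (j.2 : ℝ) * (i.2 : ℝ)) = 0 := by
      have : ∀ j ∈ J.filter (fun j => j.1 = i.1), l j * (1 + (j.2 : ℝ) * (i.2 : ℝ))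
          = l j + (l j * (j.2 : ℝ)) * (i.2 : ℝ) := fun j _ => by ring
      rw [sum_congr rfl this, sum_add_distrib, ← sum_mul, h5, h6]
      simp
    rw [sum_eq_single_of_mem i
      (mem_filter.mpr ⟨hi, rfl⟩ : i ∈ J.filter fun j => j.1 = i.1)] at h7
    · have h8 : (1 + (i.2 : ℝ) * (i.2 : ℝ)) = 2 := by
        rcases h4 with h | h <;> rw [h] <;> norm_num
      rw [h8] at h7
      linarith
    · intro j hj hji
      rw [mem_filter] at hj
      have h8 := mem_idx.mp (hJ hj.1)
      have h9 : j.2 ≠ i.2 := fun h => hji (Prod.ext hj.2 h)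
      have h10 : (1 + (j.2 : ℝ) * (i.2 : ℝ)) = 0 := by
        rcases h8 with h | ⟨-, -, h | h⟩
        · omega
        · rcases h4 with h' | h'
          · exact absurd (h.trans h'.symm) h9
          · rw [h, h']; norm_num
        · rcases h4 with h' | h'
          · rw [h, h']; norm_num
          · exact absurd (h.trans h'.symm) h9
      rw [h10, mul_zero]

open Classical in
/-- second example: pairs of points outside of a small flat -/
theorem low2 {k d : ℕ} (hk : 2 ≤ k) (hkd : k < d) :
    ∃ S : Finset (Pt d), KIndep k S ∧ S.card = 2 * d + 2 - k ∧ ¬ Divisible k S := by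
  have hinj := pt_inj hk hkd
  refine ⟨(idx k d).image (pt k d), ?_, ?_, ?_⟩
  · apply kIndep_image hinj
    intro J hJ hc l h0 h1
    exact pt_indep hk hkd hJ hc h0 h1
  · rw [card_image_of_injOn hinj, card_idx hkd]
  · set S := (idx k d).image (pt k d) with hS
    rintro ⟨A, B, hAB, hdis, hne, hfin⟩
    -- the intersection lies in the small flat
    have hflat : ∀ x ∈ convexHull ℝ A ∩ convexHull ℝ B, ∀ c : Fin d, k - 1 ≤ c.val → x c = 0 := by
      -- a convex hull with only one sign
      have hside : ∀ (C : Set (Pt d)) (c : Fin d) (σ : ℝ), (∀ p ∈ C, 0 ≤ σ * p c) →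
          ∀ x ∈ convexHull ℝ C, 0 ≤ σ * x c := by
        intro C c σ hC x hx
        have hconv : Convex ℝ {p : Pt d | 0 ≤ σ * p c} := by
          intro p hp q hq a b ha hb _
          have hp : 0 ≤ σ * p c := hp
          have hq : 0 ≤ σ * q c := hq
          show 0 ≤ σ * (a • p + b • q) c
          have : σ * (a • p + b • q) c = a * (σ * p c) + b * (σ * q c) := by
            simp; ring
          rw [this]
          positivity
        exact convexHull_min (s := C) hC hconv hx
      intro x hx c hc
      set s := c.val - (k - 1) + k with hs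
      have hval : ∀ i ∈ idx k d, pt k d i c ≠ 0 → i = (s, 1) ∨ i = (s, -1) := by
        intro i hi hne
        rw [pt_apply, if_neg (by omega)] at hne
        have h1 : c.val = k - 1 + (i.1 - k) := by
          by_contra h
          rw [if_neg h] at hne
          exact hne rfl
        rw [if_pos h1] at hne
        rcases mem_idx.mp hi with h | ⟨h2, -, h3 | h3⟩
        · rw [h.2] at hne; simp at hne
        · exact Or.inl (Prod.ext (by simp only; omega) h3)
        · exact Or.inr (Prod.ext (by simp only; omega) h3)
      have hv1 : pt k d (s, 1) c = 1 := by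
        rw [pt_apply, if_neg (by omega), if_pos (by simp only; omega)]; simp
      have hv2 : pt k d (s, -1) c = -1 := by
        rw [pt_apply, if_neg (by omega), if_pos (by simp only; omega)]; simp
      have hsub : ∀ C : Set (Pt d), C ⊆ (S : Set (Pt d)) → ∀ p ∈ C, p c ≠ 0 →
          p = pt k d (s, 1) ∨ p = pt k d (s, -1) := by
        intro C hC p hp hpc
        have := hC hp
        rw [mem_coe, hS, mem_image] at this
        obtain ⟨i, hi, rfl⟩ := this
        rcases hval i hi hpc with h | h
        · exact Or.inl (by rw [h])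
        · exact Or.inr (by rw [h])
      have hnotboth : ∀ C D : Set (Pt d), C ⊆ (S : Set (Pt d)) → D ⊆ (S : Set (Pt d)) →
          Disjoint C D → x ∈ convexHull ℝ C → x ∈ convexHull ℝ D → 0 ≤ x c := by
        intro C D hC hD hCD hxC hxD
        by_cases hm : pt k d (s, -1) ∈ C
        · -- then the other side is nonnegative
          have h2 : pt k d (s, -1) ∉ D := Set.disjoint_left.mp hCD hm
          have := hside D c 1 (by
            intro p hp
            rw [one_mul]
            by_cases h0 : p c = 0
            · rw [h0]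
            · rcases hsub D hD p hp h0 with h | h
              · rw [h, hv1]; norm_num
              · exact absurd (h ▸ hp) h2) x hxD
          linarith
        · have := hside C c 1 (by
            intro p hp
            rw [one_mul]
            by_cases h0 : p c = 0
            · rw [h0]
            · rcases hsub C hC p hp h0 with h | h
              · rw [h, hv1]; norm_num
              · exact absurd (h ▸ hp) hm) x hxC
          linarith
      have hnotboth' : ∀ C D : Set (Pt d), C ⊆ (S : Set (Pt d)) → D ⊆ (S : Set (Pt d)) →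
          Disjoint C D → x ∈ convexHull ℝ C → x ∈ convexHull ℝ D → x c ≤ 0 := by
        intro C D hC hD hCD hxC hxD
        by_cases hm : pt k d (s, 1) ∈ C
        · have h2 : pt k d (s, 1) ∉ D := Set.disjoint_left.mp hCD hm
          have := hside D c (-1) (by
            intro p hp
            by_cases h0 : p c = 0
            · rw [h0, mul_zero]
            · rcases hsub D hD p hp h0 with h | h
              · exact absurd (h ▸ hp) h2
              · rw [h, hv2]; norm_num) x hxD
          linarith
        · have := hside C c (-1) (by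
            intro p hp
            by_cases h0 : p c = 0
            · rw [h0, mul_zero]
            · rcases hsub C hC p hp h0 with h | h
              · exact absurd (h ▸ hp) hm
              · rw [h, hv2]; norm_num) x hxC
          linarith
      have hAS : A ⊆ (S : Set (Pt d)) := hAB ▸ Set.subset_union_left
      have hBS : B ⊆ (S : Set (Pt d)) := hAB ▸ Set.subset_union_right
      exact le_antisymm (hnotboth' A B hAS hBS hdis hx.1 hx.2)
        (hnotboth A B hAS hBS hdis hx.1 hx.2)
    -- dimension
    set K := convexHull ℝ A ∩ convexHull ℝ B with hK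
    set F : Pt d →ₗ[ℝ] (Fin (k - 1) → ℝ) :=
      { toFun := fun x c => x ⟨c.val, by omega⟩
        map_add' := fun x y => by ext c; simp
        map_smul' := fun a x => by ext c; simp } with hF
    have hFinj : ∀ x ∈ vectorSpan ℝ K, F x = 0 → x = 0 := by
      intro x hx hFx
      have h1 : ∀ c : Fin d, k - 1 ≤ c.val → x c = 0 := by
        intro c hc
        have hle : vectorSpan ℝ K ≤ LinearMap.ker
            ((EuclideanSpace.proj c : Pt d →L[ℝ] ℝ) : Pt d →ₗ[ℝ] ℝ) := by
          rw [vectorSpan_def, Submodule.span_le]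
          intro y hy
          rw [Set.mem_vsub] at hy
          obtain ⟨a, ha, b, hb, rfl⟩ := hy
          rw [SetLike.mem_coe, LinearMap.mem_ker]
          simp [hflat a ha c hc, hflat b hb c hc]
        have := hle hx
        rw [LinearMap.mem_ker] at this
        simpa using this
      ext c
      by_cases hc : c.val < k - 1
      · have := congrFun hFx ⟨c.val, hc⟩
        simpa [hF] using this
      · rw [h1 c (by omega)]; rfl
    have hG : Function.Injective (F.domRestrict (vectorSpan ℝ K)) := by
      rw [injective_iff_map_eq_zero]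
      intro x hx
      exact Subtype.ext (hFinj x x.2 hx)
    have h2 := LinearMap.finrank_le_finrank_of_injective hG
    rw [Module.finrank_fin_fun] at h2
    omega

end Pool.Agent.H36.DV
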