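import Pool.Agent.H36.DV.Flip

/-!
Maximal topes: the structure of the common span.
-/

set_option linter.unusedSectionVars false

namespace Pool.Agent.H36.DV

open Finset

variable {ι W : Type*} [DecidableEq ι] [AddCommGroup W] [Module ℝ W]

/-- the span of a subfamily -/
abbrev sp (v : ι → W) (A : Finset ι) : Submodule ℝ W := Submodule.span ℝ (v '' (A : Set ι))

instance instFinSp (v : ι → W) (A : Finset ι) : FiniteDimensional ℝ (sp v A) :=
  FiniteDimensional.span_of_finite ℝ (A.finite_toSet.image v)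

lemma rk_def (v : ι → W) (A : Finset ι) : rk v A = Module.finrank ℝ (sp v A) := rfl

lemma rk_congr {v : ι → W} {A B : Finset ι} (h : sp v A = sp v B) : rk v A = rk v B := by
  rw [rk_def, rk_def, h]

lemma sp_mono (v : ι → W) {A B : Finset ι} (h : A ⊆ B) : sp v A ≤ sp v B :=
  Submodule.span_mono (Set.image_mono (by exact_mod_cast h))

lemma mem_sp (v : ι → W) {A : Finset ι} {i : ι} (h : i ∈ A) : v i ∈ sp v A :=
  Submodule.subset_span ⟨i, h, rfl⟩

lemma rk_mono (v : ι → W) {A B : Finset ι} (h : A ⊆ B) : rk v A ≤ rk v B :=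
  Submodule.finrank_mono (sp_mono v h)

lemma sp_union (v : ι → W) (A B : Finset ι) : sp v (A ∪ B) = sp v A ⊔ sp v B := by
  rw [sp, coe_union, Set.image_union, Submodule.span_union]

lemma sp_insert (v : ι → W) (A : Finset ι) (j : ι) :
    sp v (insert j A) = Submodule.span ℝ {v j} ⊔ sp v A := by
  rw [sp, coe_insert, Set.image_insert_eq, Submodule.span_insert]

lemma rk_le_card (v : ι → W) (A : Finset ι) : rk v A ≤ A.card := by
  classical
  have h := finrank_span_finset_le_card (R := ℝ) (A.image v)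
  rw [coe_image] at h
  exact h.trans card_image_le

lemma rk_insert_le (v : ι → W) (A : Finset ι) (j : ι) : rk v (insert j A) ≤ rk v A + 1 := by
  rw [rk_def, sp_insert, rk_def]
  have h1 := Submodule.finrank_add_le_finrank_add_finrank (Submodule.span ℝ {v j}) (sp v A)
  have h2 : Module.finrank ℝ (Submodule.span ℝ {v j}) ≤ 1 := by
    have := finrank_span_le_card (R := ℝ) ({v j} : Set W)
    simpa using this
  omega

lemma sp_insert_of_mem (v : ι → W) {A : Finset ι} {j : ι} (h : v j ∈ sp v A) :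
    sp v (insert j A) = sp v A := by
  rw [sp_insert]
  exact sup_eq_right.mpr ((Submodule.span_singleton_le_iff_mem _ _).mpr h)

lemma rk_insert_of_mem (v : ι → W) {A : Finset ι} {j : ι} (h : v j ∈ sp v A) :
    rk v (insert j A) = rk v A := rk_congr (sp_insert_of_mem v h)

lemma rk_insert_of_notMem (v : ι → W) {A : Finset ι} {j : ι} (h : v j ∉ sp v A) :
    rk v (insert j A) = rk v A + 1 := by
  apply le_antisymm (rk_insert_le v A j)
  have : sp v A < sp v (insert j A) := by
    refine lt_of_le_of_ne (sp_mono v (subset_insert _ _)) ?_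
    intro h'
    exact h (h' ▸ mem_sp v (mem_insert_self j A))
  exact Submodule.finrank_lt_finrank_of_lt this

lemma sp_eq_of_rk (v : ι → W) {A B : Finset ι} (h : A ⊆ B) (hr : rk v B ≤ rk v A) :
    sp v A = sp v B :=
  Submodule.eq_of_le_of_finrank_le (sp_mono v h) hr

lemma sp_erase (v : ι → W) {A : Finset ι} {j : ι} (hj : j ∈ A) (h : v j ∈ sp v (A.erase j)) :
    sp v (A.erase j) = sp v A := by
  rw [← sp_insert_of_mem v h, insert_erase hj]

lemma rk_le_erase (v : ι → W) {A : Finset ι} (j : ι) : rk v A ≤ rk v (A.erase j) + 1 := by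
  by_cases hj : j ∈ A
  · have := rk_insert_le v (A.erase j) j
    rwa [insert_erase hj] at this
  · rw [erase_eq_of_notMem hj]; omega

/-- a dependent family has a nonzero relation -/
lemma exists_rel_of_lt (v : ι → W) {A : Finset ι} (h : rk v A < A.card) :
    ∃ l, IsRel v A l ∧ l ≠ 0 := by
  classical
  have h1 : ¬ LinearIndependent ℝ (fun i : A => v i) := by
    intro hli
    have h2 := linearIndependent_iff_card_le_finrank_span.mp hli
    rw [Fintype.card_coe] at h2
    have h3 : Set.range (fun i : A => v i) = v '' (A : Set ι) := by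
      ext x
      simp
    rw [h3] at h2
    exact absurd h (not_lt.mpr h2)
  rw [Fintype.linearIndependent_iff] at h1
  push Not at h1
  obtain ⟨g, hg, i, hi⟩ := h1
  refine ⟨fun j => if hj : j ∈ A then g ⟨j, hj⟩ else 0, ⟨fun j hj => by simp [hj], ?_⟩, ?_⟩
  · rw [← hg, ← sum_coe_sort]
    refine sum_congr rfl fun j _ => ?_
    simp
  · intro h0
    have := congrFun h0 i
    simp at this
    exact hi this

/-- independence from the rank -/
lemma no_rel_of_card (v : ι → W) {A : Finset ι} (h : rk v A = A.card) {l : ι → ℝ}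
    (hl : IsRel v A l) : l = 0 := by
  classical
  by_contra hne
  obtain ⟨j, hj⟩ : ∃ j, l j ≠ 0 := by
    by_contra h'
    push Not at h'
    exact hne (funext h')
  have hjA : j ∈ A := by
    by_contra h'
    exact hj (hl.1 j h')
  have h1 := hl.mem_span hj
  have h2 : rk v A = rk v (A.erase j) := rk_congr (sp_erase v hjA h1).symm
  have h3 := rk_le_card v (A.erase j)
  rw [card_erase_of_mem hjA] at h3
  have : 0 < A.card := card_pos.mpr ⟨j, hjA⟩
  omega

/-- maximal topes -/
def IsMaxTope (v : ι → W) (S P : Finset ι) : Prop :=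
  IsTope v S P ∧ ∀ P', IsTope v S P' → rk v P' + rk v (S \ P') ≤ rk v P + rk v (S \ P)

lemma exists_maxTope {v : ι → W} {S : Finset ι} (hs : Simple v S) : ∃ P, IsMaxTope v S P := by
  classical
  obtain ⟨P, hP, hmax⟩ := exists_max_image (S.powerset.filter fun P => IsTope v S P)
    (fun P => rk v P + rk v (S \ P)) (by
      obtain ⟨P, hP⟩ := exists_tope hs
      exact ⟨P, mem_filter.mpr ⟨mem_powerset.mpr hP.1, hP⟩⟩)
  refine ⟨P, (mem_filter.mp hP).2, fun P' hP' => ?_⟩
  exact hmax P' (mem_filter.mpr ⟨mem_powerset.mpr hP'.1, hP'⟩)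

lemma IsMaxTope.compl {v : ι → W} {S P : Finset ι} (h : IsMaxTope v S P) :
    IsMaxTope v S (S \ P) := by
  refine ⟨h.1.compl, fun P' hP' => ?_⟩
  rw [Finset.sdiff_sdiff_eq_self h.1.1, add_comm (rk v (S \ P))]
  exact h.2 P' hP'

lemma IsMaxTope.of_ge {v : ι → W} {S P P' : Finset ι} (h : IsMaxTope v S P) (h' : IsTope v S P')
    (hle : rk v P + rk v (S \ P) ≤ rk v P' + rk v (S \ P')) : IsMaxTope v S P' :=
  ⟨h', fun P'' hP'' => (h.2 P'' hP'').trans hle⟩

lemma sdiff_erase_eq {S P : Finset ι} {j : ι} (hP : P ⊆ S) (hj : j ∈ P) :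
    S \ P.erase j = insert j (S \ P) := by
  ext x
  simp only [mem_sdiff, mem_erase, mem_insert, not_and, ne_eq]
  constructor
  · rintro ⟨h1, h2⟩
    by_cases hx : x = j
    · exact Or.inl hx
    · exact Or.inr ⟨h1, h2 hx⟩
  · rintro (rfl | ⟨h1, h2⟩)
    · exact ⟨hP hj, fun h => absurd rfl h⟩
    · exact ⟨h1, fun _ => h2⟩

section pos

variable {v : ι → W} {S P : Finset ι} (h : W →ₗ[ℝ] ℝ)

/-- a nonzero relation of a positive family has a negative coefficient -/
lemma exists_neg_of_rel {A : Finset ι} (hpos : ∀ i ∈ A, 0 < h (v i)) {η : ι → ℝ}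
    (hη : IsRel v A η) (hne : η ≠ 0) : ∃ i ∈ A, η i < 0 := by
  by_contra hc
  push Not at hc
  have h1 : ∑ i ∈ A, η i * h (v i) = 0 := by
    have := congrArg h hη.2
    simpa [map_sum] using this
  rw [sum_eq_zero_iff_of_nonneg (fun i hi => mul_nonneg (hc i hi) (hpos i hi).le)] at h1
  apply hne
  funext i
  by_cases hi : i ∈ A
  · have := h1 i hi
    rcases mul_eq_zero.mp this with h2 | h2
    · exact h2
    · exact absurd h2 (hpos i hi).ne'
  · exact hη.1 i hi

/-- Claim A. -/
lemma claimA (hs : Simple v S) (hpos : ∀ i ∈ S, 0 < h (v i)) (hP : IsMaxTope v S P) {η : ι → ℝ}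
    (hη : IsRel v P η) (hne : η ≠ 0) :
    ∃ j ∈ P, η j < 0 ∧ v j ∈ sp v (S \ P) ∧ IsMaxTope v S (P.erase j) ∧
      sp v (P.erase j) = sp v P ∧ sp v (S \ P.erase j) = sp v (S \ P) := by
  have hPS := hP.1.1
  obtain ⟨i, hi, hneg⟩ := exists_neg_of_rel h (fun i hi => hpos i (hPS hi)) hη hne
  obtain ⟨j, hjS, hj⟩ := flip hs hP.1 (hη.mono hPS) ⟨i, hPS hi, Or.inl ⟨hi, hneg⟩⟩
  rcases hj with ⟨hjP, hj0, htope⟩ | ⟨hjP, hj0, -⟩
  swap
  · rw [hη.1 j hjP] at hj0
    exact absurd hj0 (lt_irrefl _)
  have h1 : sp v (P.erase j) = sp v P := sp_erase v hjP (hη.mem_span hj0.ne)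
  have h1' : rk v (P.erase j) = rk v P := rk_congr h1
  have h2 : v j ∈ sp v (S \ P) := by
    by_contra hnot
    have h3 := hP.2 _ htope
    rw [sdiff_erase_eq hPS hjP, rk_insert_of_notMem v hnot, h1'] at h3
    omega
  have h4 : sp v (S \ P.erase j) = sp v (S \ P) := by
    rw [sdiff_erase_eq hPS hjP, sp_insert_of_mem v h2]
  refine ⟨j, hjP, hj0, h2, hP.of_ge htope ?_, h1, h4⟩
  rw [rk_congr h1, rk_congr h4]

open Classical in
/-- the elements of `A` in the span of `B` -/
noncomputable def inSp (v : ι → W) (A B : Finset ι) : Finset ι := A.filter fun i => v i ∈ sp v B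

lemma mem_inSp {A B : Finset ι} {i : ι} : i ∈ inSp v A B ↔ i ∈ A ∧ v i ∈ sp v B := by
  classical
  simp [inSp]

/-- the nullity of a side is smaller than the number of its elements in the other span -/
lemma dep_card (hs : Simple v S) (hpos : ∀ i ∈ S, 0 < h (v i)) (hP : IsMaxTope v S P)
    (hdep : rk v P < P.card) : P.card + 1 ≤ rk v P + (inSp v P (S \ P)).card := by
  classical
  have hPS := hP.1.1
  set U := inSp v P (S \ P) with hU
  have hUP : U ⊆ P := fun i hi => (mem_inSp.mp hi).1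
  set C := P \ U with hC
  have hCP : C ⊆ P := sdiff_subset
  have hcard : C.card + U.card = P.card := card_sdiff_add_card_eq_card hUP
  have hCind : rk v C = C.card := by
    apply le_antisymm (rk_le_card v C)
    by_contra hlt
    push Not at hlt
    obtain ⟨η, hη, hne⟩ := exists_rel_of_lt v hlt
    obtain ⟨j, hjP, hj0, hjs, -⟩ := claimA h hs hpos hP (hη.mono hCP) hne
    have : j ∉ C := fun hj => (mem_sdiff.mp hj).2 (mem_inSp.mpr ⟨hjP, hjs⟩)
    rw [hη.1 j this] at hj0
    exact lt_irrefl _ hj0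
  have hle : rk v C ≤ rk v P := rk_mono v hCP
  by_contra hcon
  push Not at hcon
  have hspan : sp v C = sp v P := sp_eq_of_rk v hCP (by omega)
  have hw : ∑ u ∈ U, v u ∈ sp v C := by
    rw [hspan]
    exact Submodule.sum_mem _ fun u hu => mem_sp v (hUP hu)
  obtain ⟨c, hc⟩ := exists_fun_of_mem_span hw
  set η : ι → ℝ := fun i => if i ∈ U then 1 else if i ∈ C then - c i else 0 with hη
  have hrel : IsRel v P η := by
    refine ⟨fun i hi => ?_, ?_⟩
    · have h1 : i ∉ U := fun h => hi (hUP h)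
      have h2 : i ∉ C := fun h => hi (hCP h)
      simp [hη, h1, h2]
    · rw [← sdiff_union_of_subset hUP, sum_union (sdiff_disjoint)]
      have h1 : ∑ x ∈ U, η x • v x = ∑ x ∈ U, v x := by
        refine sum_congr rfl fun x hx => ?_
        simp [hη, hx]
      have h2 : ∑ x ∈ P \ U, η x • v x = - ∑ x ∈ C, c x • v x := by
        rw [← sum_neg_distrib]
        refine sum_congr rfl fun x hx => ?_
        have : x ∉ U := (mem_sdiff.mp hx).2
        have hx' : x ∈ C := hx
        simp [hη, this, hx']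
      rw [h1, h2, hc]
      simp
  have hUne : U.Nonempty := by
    rw [← card_pos]
    omega
  obtain ⟨u, hu⟩ := hUne
  have hne : η ≠ 0 := by
    intro h0
    have := congrFun h0 u
    simp [hη, hu] at this
  obtain ⟨j, hjP, hj0, hjs, -⟩ := claimA h hs hpos hP hrel hne
  have : j ∈ U := mem_inSp.mpr ⟨hjP, hjs⟩
  simp only [hη, this, if_true] at hj0
  linarith

/-- one more element on the other side -/
lemma dep_other (hs : Simple v S) (hpos : ∀ i ∈ S, 0 < h (v i)) (hP : IsMaxTope v S P)
    (hdep : rk v P < P.card) : ∃ j ∈ P, v j ∈ sp v (S \ P) ∧ IsMaxTope v S (P.erase j) ∧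
      sp v (P.erase j) = sp v P ∧ sp v (S \ P.erase j) = sp v (S \ P) ∧
      rk v (S \ P.erase j) < (S \ P.erase j).card := by
  obtain ⟨η, hη, hne⟩ := exists_rel_of_lt v hdep
  obtain ⟨j, hjP, hj0, hjs, hmax, h1, h2⟩ := claimA h hs hpos hP hη hne
  refine ⟨j, hjP, hjs, hmax, h1, h2, ?_⟩
  rw [rk_congr h2, sdiff_erase_eq hP.1.1 hjP, card_insert_of_notMem (by simp [hjP])]
  exact Nat.lt_succ_of_le (rk_le_card v _)

lemma dep_other_card (hs : Simple v S) (hpos : ∀ i ∈ S, 0 < h (v i)) (hP : IsMaxTope v S P)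
    (hdep : rk v P < P.card) : 1 ≤ (inSp v (S \ P) P).card := by
  classical
  obtain ⟨j, hjP, hjs, hmax, h1, h2, h3⟩ := dep_other h hs hpos hP hdep
  have h4 := dep_card h hs hpos hmax.compl h3
  have hsub : inSp v (S \ P.erase j) (S \ (S \ P.erase j)) ⊆ insert j (inSp v (S \ P) P) := by
    intro x hx
    rw [mem_inSp, Finset.sdiff_sdiff_eq_self ((erase_subset _ _).trans hP.1.1), h1,
      sdiff_erase_eq hP.1.1 hjP, mem_insert] at hx
    rw [mem_insert, mem_inSp]
    rcases hx with ⟨hx | hx, hx'⟩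
    · exact Or.inl hx
    · exact Or.inr ⟨hx, hx'⟩
  have h5 := (card_le_card hsub).trans (card_insert_le _ _)
  omega

end pos

end Pool.Agent.H36.DV
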