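import Pool.Agent.H36.DV.Rank

/-!
Topes of large rank in the simple case.
-/

set_option linter.unusedSectionVars false

namespace Pool.Agent.H36.DV

open Finset

variable {ι W : Type*} [DecidableEq ι] [AddCommGroup W] [Module ℝ W]

/-- every subfamily of at most `k + 1` members is independent -/
def KInd (v : ι → W) (S : Finset ι) (k : ℕ) : Prop :=
  ∀ J ⊆ S, J.card ≤ k + 1 → rk v J = J.card

lemma KInd.mono {v : ι → W} {S T : Finset ι} {k : ℕ} (h : KInd v S k) (hT : T ⊆ S) :
    KInd v T k := fun J hJ hc => h J (hJ.trans hT) hc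

/-- a subfamily with more than `k` members has rank more than `k` -/
lemma KInd.le_rk {v : ι → W} {S J : Finset ι} {k : ℕ} (h : KInd v S k) (hJ : J ⊆ S)
    (hc : k + 1 ≤ J.card) : k + 1 ≤ rk v J := by
  obtain ⟨J', hJ', hc'⟩ := exists_subset_card_eq hc
  have := h J' (hJ'.trans hJ) hc'.le
  rw [hc'] at this
  rw [← this]
  exact rk_mono v hJ'

/-- dependent subfamilies have rank more than `k` -/
lemma KInd.le_rk_of_dep {v : ι → W} {S J : Finset ι} {k : ℕ} (h : KInd v S k) (hJ : J ⊆ S)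
    (hc : rk v J < J.card) : k + 1 ≤ rk v J := by
  apply h.le_rk hJ
  by_contra hlt
  have := h J hJ (by omega)
  omega

lemma finrank_inf (v : ι → W) (P Q : Finset ι) :
    Module.finrank ℝ ↥(sp v P ⊓ sp v Q) + rk v (P ∪ Q) = rk v P + rk v Q := by
  have h := Submodule.finrank_sup_add_finrank_inf_eq (sp v P) (sp v Q)
  rw [← sp_union] at h
  rw [rk_def, rk_def, rk_def]
  omega

lemma card_le_of_inf {v : ι → W} {P Q T J : Finset ι} {k : ℕ} (hT : KInd v T k) (hJ : J ⊆ T)
    (hJD : ∀ i ∈ J, v i ∈ sp v P ∧ v i ∈ sp v Q)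
    (hk : rk v P + rk v Q ≤ rk v (P ∪ Q) + k) : J.card + rk v (P ∪ Q) ≤ rk v P + rk v Q := by
  by_contra hcon
  push Not at hcon
  have hf := finrank_inf v P Q
  set κ := Module.finrank ℝ ↥(sp v P ⊓ sp v Q) with hκ
  obtain ⟨J', hJ', hc'⟩ := exists_subset_card_eq (show κ + 1 ≤ J.card by omega)
  have h1 := hT J' (hJ'.trans hJ) (by omega)
  have h2 : sp v J' ≤ sp v P ⊓ sp v Q := by
    rw [sp, Submodule.span_le]
    rintro x ⟨i, hi, rfl⟩
    exact hJD i (hJ' hi)
  haveI : FiniteDimensional ℝ ↥(sp v P ⊓ sp v Q) :=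
    Submodule.finiteDimensional_inf_left _ _
  have h3 : rk v J' ≤ κ := Submodule.finrank_mono h2
  omega

lemma union_compl {S P : Finset ι} (h : P ⊆ S) : P ∪ (S \ P) = S := union_sdiff_of_subset h

section

variable {v : ι → W} {S P : Finset ι} {k : ℕ} (h : W →ₗ[ℝ] ℝ)

lemma card_side (h : P ⊆ S) : P.card + (S \ P).card = S.card := by
  rw [add_comm]; exact card_sdiff_add_card_eq_card h

lemma U_card {T : Finset ι} (hK : KInd v T k) (hPS : P ⊆ S)
    (hk : rk v P + rk v (S \ P) ≤ rk v S + k) :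
    ((inSp v P (S \ P) ∪ inSp v (S \ P) P) ∩ T).card + rk v S ≤ rk v P + rk v (S \ P) := by
  have hu := union_compl hPS
  have := card_le_of_inf (P := P) (Q := S \ P) (J := (inSp v P (S \ P) ∪ inSp v (S \ P) P) ∩ T)
    hK inter_subset_right (by
      intro i hi
      rw [mem_inter, mem_union, mem_inSp, mem_inSp] at hi
      rcases hi.1 with h | h
      · exact ⟨mem_sp v h.1, h.2⟩
      · exact ⟨h.2, mem_sp v h.1⟩) (by rw [hu]; exact hk)
  rwa [hu] at this

lemma U_union (P : Finset ι) (S : Finset ι) :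
    (inSp v P (S \ P) ∪ inSp v (S \ P) P).card
      = (inSp v P (S \ P)).card + (inSp v (S \ P) P).card := by
  apply card_union_of_disjoint
  rw [Finset.disjoint_left]
  intro i hi hi'
  rw [mem_inSp] at hi hi'
  exact (mem_sdiff.mp hi'.1).2 hi.1

lemma U_sub (hPS : P ⊆ S) : inSp v P (S \ P) ∪ inSp v (S \ P) P ⊆ S := by
  intro i hi
  rw [mem_union, mem_inSp, mem_inSp] at hi
  rcases hi with h | h
  · exact hPS h.1
  · exact (mem_sdiff.mp h.1).1

lemma U_card' (hK : KInd v S k) (hPS : P ⊆ S)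
    (hk : rk v P + rk v (S \ P) ≤ rk v S + k) :
    (inSp v P (S \ P)).card + (inSp v (S \ P) P).card + rk v S ≤ rk v P + rk v (S \ P) := by
  have := U_card hK hPS hk
  rwa [inter_eq_left.mpr (U_sub hPS), U_union] at this

lemma dep_card' (hs : Simple v S) (hpos : ∀ i ∈ S, 0 < h (v i)) (hP : IsMaxTope v S P)
    (hdep : rk v (S \ P) < (S \ P).card) :
    (S \ P).card + 1 ≤ rk v (S \ P) + (inSp v (S \ P) P).card := by
  have := dep_card h hs hpos hP.compl hdep
  rwa [Finset.sdiff_sdiff_eq_self hP.1.1] at this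

lemma dep_other_card' (hs : Simple v S) (hpos : ∀ i ∈ S, 0 < h (v i)) (hP : IsMaxTope v S P)
    (hdep : rk v (S \ P) < (S \ P).card) : 1 ≤ (inSp v P (S \ P)).card := by
  have := dep_other_card h hs hpos hP.compl hdep
  rwa [Finset.sdiff_sdiff_eq_self hP.1.1] at this

/-- Theorem S. -/
theorem thmS (hs : Simple v S) (hpos : ∀ i ∈ S, 0 < h (v i)) (hP : IsMaxTope v S P)
    (ht : rk v P + rk v (S \ P) < S.card) :
    S.card + 2 ≤ rk v P + rk v (S \ P) + (inSp v P (S \ P)).card + (inSp v (S \ P) P).card := by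
  have hc := card_side hP.1.1
  have h1 := rk_le_card v P
  have h2 := rk_le_card v (S \ P)
  by_cases hp : rk v P < P.card
  · have h3 := dep_card h hs hpos hP hp
    by_cases hq : rk v (S \ P) < (S \ P).card
    · have h4 := dep_card' h hs hpos hP hq
      omega
    · have h4 := dep_other_card h hs hpos hP hp
      omega
  · have hq : rk v (S \ P) < (S \ P).card := by omega
    have h3 := dep_card' h hs hpos hP hq
    have h4 := dep_other_card' h hs hpos hP hq
    omega

/-- Lemma Z. -/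
theorem lemZ (hs : Simple v S) (hpos : ∀ i ∈ S, 0 < h (v i)) (hP : IsMaxTope v S P)
    (hK : KInd v S k) (hk : rk v P + rk v (S \ P) ≤ rk v S + k)
    (ht : rk v P + rk v (S \ P) < S.card) : rk v P < rk v S := by
  have hPS := hP.1.1
  refine lt_of_le_of_ne (rk_mono v hPS) ?_
  intro heq
  have hsp : sp v P = sp v S := sp_eq_of_rk v hPS heq.ge
  have hU := U_card' hK hPS hk
  have hb : inSp v (S \ P) P = S \ P := by
    ext i
    rw [mem_inSp, hsp]
    exact ⟨fun h => h.1, fun h => ⟨h, mem_sp v (mem_sdiff.mp h).1⟩⟩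
  rw [hb] at hU
  have h1 := rk_le_card v P
  have h2 := rk_le_card v (S \ P)
  have hc := card_side hPS
  have hp : rk v P < P.card := by omega
  have h3 := dep_card h hs hpos hP hp
  omega

theorem lemZ' (hs : Simple v S) (hpos : ∀ i ∈ S, 0 < h (v i)) (hP : IsMaxTope v S P)
    (hK : KInd v S k) (hk : rk v P + rk v (S \ P) ≤ rk v S + k)
    (ht : rk v P + rk v (S \ P) < S.card) : rk v (S \ P) < rk v S := by
  have hPS := hP.1.1
  refine lemZ h hs hpos hP.compl hK ?_ ?_
  · rw [Finset.sdiff_sdiff_eq_self hPS]; omega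
  · rw [Finset.sdiff_sdiff_eq_self hPS]; omega

/-- T1 -/
theorem T1 (hs : Simple v S) (hpos : ∀ i ∈ S, 0 < h (v i)) (hK : KInd v S k)
    (hR : rk v S = k + 1) {t : ℕ} (htk : t ≤ k) (hc : k + 1 + t + 1 ≤ S.card) :
    ∃ P, IsTope v S P ∧ k + 1 + t + 1 ≤ rk v P + rk v (S \ P) := by
  obtain ⟨P, hP⟩ := exists_maxTope hs
  refine ⟨P, hP.1, ?_⟩
  by_contra hcon
  push Not at hcon
  have hPS := hP.1.1
  have hcs := card_side hPS
  have h1 := rk_le_card v P
  have h2 := rk_le_card v (S \ P)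
  have hZ := lemZ h hs hpos hP hK (by omega) (by omega)
  have hZ' := lemZ' h hs hpos hP hK (by omega) (by omega)
  by_cases hp : rk v P < P.card
  · have := hK.le_rk_of_dep hPS hp
    omega
  · have := hK.le_rk_of_dep (J := S \ P) sdiff_subset (by omega)
    omega

/-- T3 -/
theorem T3 (hs : Simple v S) (hpos : ∀ i ∈ S, 0 < h (v i)) (hK : KInd v S k)
    (hc : rk v S + k + 1 ≤ S.card) (hc' : rk v S + 2 * k ≤ S.card + 1) :
    ∃ P, IsTope v S P ∧ rk v S + k + 1 ≤ rk v P + rk v (S \ P) := by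
  obtain ⟨P, hP⟩ := exists_maxTope hs
  refine ⟨P, hP.1, ?_⟩
  by_contra hcon
  push Not at hcon
  have hPS := hP.1.1
  have h1 := thmS h hs hpos hP (by omega)
  have h2 := U_card' hK hPS (by omega)
  omega

/-- flipping an element outside of the common span -/
lemma erase_off (hP : IsMaxTope v S P) {j : ι} (hj : j ∈ P) (ht : IsTope v S (P.erase j))
    (hj' : v j ∉ sp v (S \ P)) : IsMaxTope v S (P.erase j) ∧
      rk v (S \ P.erase j) = rk v (S \ P) + 1 ∧
      rk v (P.erase j) + rk v (S \ P.erase j) = rk v P + rk v (S \ P) := by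
  have hPS := hP.1.1
  have h1 : rk v (S \ P.erase j) = rk v (S \ P) + 1 := by
    rw [sdiff_erase_eq hPS hj, rk_insert_of_notMem v hj']
  have h2 := hP.2 _ ht
  have h3 := rk_le_erase v (A := P) j
  exact ⟨hP.of_ge ht (by omega), h1, by omega⟩

lemma T2_aux (hs : Simple v S) (hpos : ∀ i ∈ S, 0 < h (v i)) (hP : IsMaxTope v S P)
    (hK : KInd v S k) (hk : rk v P + rk v (S \ P) ≤ rk v S + k)
    (ht : rk v P + rk v (S \ P) < S.card) (hQ : rk v (S \ P) + 1 = rk v S)
    {j : ι} (hj : j ∈ P) (htope : IsTope v S (P.erase j)) (hj' : v j ∉ sp v (S \ P)) : False := by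
  obtain ⟨h1, h2, h3⟩ := erase_off hP hj htope hj'
  have := lemZ' h hs hpos h1 hK (by omega) (by omega)
  omega

/-- T2 -/
theorem T2 (hs : Simple v S) (hpos : ∀ i ∈ S, 0 < h (v i)) (hK : KInd v S k)
    (hR : rk v S = k + 2) (hc : 2 * k + 3 ≤ S.card) :
    ∃ P, IsTope v S P ∧ rk v S + k + 1 ≤ rk v P + rk v (S \ P) := by
  classical
  obtain ⟨P, hP⟩ := exists_maxTope hs
  refine ⟨P, hP.1, ?_⟩
  by_contra hcon
  push Not at hcon
  have hPS := hP.1.1
  have hcs := card_side hPS
  have h1 := rk_le_card v P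
  have h2 := rk_le_card v (S \ P)
  have hZ := lemZ h hs hpos hP hK (by omega) (by omega)
  have hZ' := lemZ' h hs hpos hP hK (by omega) (by omega)
  -- both ranks are `k + 1`
  have hboth : rk v P = k + 1 ∧ rk v (S \ P) = k + 1 := by
    by_cases hp : rk v P < P.card
    · have h3 := hK.le_rk_of_dep hPS hp
      obtain ⟨j, hj, -, hmax, h4, h5, h6⟩ := dep_other h hs hpos hP hp
      have h7 := hK.le_rk_of_dep (J := S \ P.erase j) sdiff_subset h6
      rw [rk_congr h5] at h7
      omega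
    · have hq : rk v (S \ P) < (S \ P).card := by omega
      have h3 := hK.le_rk_of_dep (J := S \ P) sdiff_subset hq
      obtain ⟨j, hj, -, hmax, h4, h5, h6⟩ := dep_other h hs hpos hP.compl hq
      have h7 := hK.le_rk_of_dep (J := S \ (S \ P).erase j) sdiff_subset h6
      rw [rk_congr h5, Finset.sdiff_sdiff_eq_self hPS] at h7
      omega
  -- a relation off `U`
  have hU := U_card' hK hPS (by omega)
  rw [← U_union] at hU
  set U := inSp v P (S \ P) ∪ inSp v (S \ P) P with hUdef
  have hUS : U ⊆ S := U_sub hPS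
  have hcU := card_sdiff_add_card_eq_card hUS
  have hrk : rk v (S \ U) ≤ rk v S := rk_mono v sdiff_subset
  obtain ⟨μ, hμ, hne⟩ := exists_rel_of_lt v (A := S \ U) (by omega)
  have hμS : IsRel v S μ := hμ.mono sdiff_subset
  obtain ⟨i, hi⟩ : ∃ i, μ i ≠ 0 := by
    by_contra h'
    push Not at h'
    exact hne (funext h')
  have hiS : i ∈ S := by
    by_contra h'
    exact hi (hμS.1 i h')
  -- choose the sign
  obtain ⟨η, hη, hηU, h0⟩ : ∃ η, IsRel v S η ∧ (∀ j, η j ≠ 0 → j ∉ U) ∧
      ∃ i ∈ S, (i ∈ P ∧ η i < 0) ∨ (i ∉ P ∧ 0 < η i) := by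
    have hoff : ∀ j, μ j ≠ 0 → j ∉ U := by
      intro j hj hjU
      exact hj (hμ.1 j fun h' => (mem_sdiff.mp h').2 hjU)
    by_cases hiP : i ∈ P
    · rcases lt_or_gt_of_ne hi with hlt | hgt
      · exact ⟨μ, hμS, hoff, i, hiS, Or.inl ⟨hiP, hlt⟩⟩
      · exact ⟨-μ, hμS.neg, fun j hj => hoff j (by simpa using hj), i, hiS,
          Or.inl ⟨hiP, by simpa using hgt⟩⟩
    · rcases lt_or_gt_of_ne hi with hlt | hgt
      · exact ⟨-μ, hμS.neg, fun j hj => hoff j (by simpa using hj), i, hiS,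
          Or.inr ⟨hiP, by simpa using hlt⟩⟩
      · exact ⟨μ, hμS, hoff, i, hiS, Or.inr ⟨hiP, hgt⟩⟩
  obtain ⟨j, hjS, hj⟩ := flip hs hP.1 hη h0
  rcases hj with ⟨hjP, hj0, htope⟩ | ⟨hjP, hj0, htope⟩
  · have hjU := hηU j hj0.ne
    refine T2_aux h hs hpos hP hK (by omega) (by omega) (by omega) hjP htope ?_
    intro hmem
    exact hjU (mem_union_left _ (mem_inSp.mpr ⟨hjP, hmem⟩))
  · have hjU := hηU j hj0.ne'
    have hjQ : j ∈ S \ P := mem_sdiff.mpr ⟨hjS, hjP⟩
    have hset : S \ insert j P = (S \ P).erase j := by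
      ext x
      simp only [mem_sdiff, mem_insert, mem_erase, not_or]
      tauto
    have htope' : IsTope v S ((S \ P).erase j) := hset ▸ htope.compl
    refine T2_aux h hs hpos hP.compl hK ?_ ?_ ?_ hjQ htope' ?_
    · rw [Finset.sdiff_sdiff_eq_self hPS]; omega
    · rw [Finset.sdiff_sdiff_eq_self hPS]; omega
    · rw [Finset.sdiff_sdiff_eq_self hPS]; omega
    · rw [Finset.sdiff_sdiff_eq_self hPS]
      intro hmem
      exact hjU (mem_union_right _ (mem_inSp.mpr ⟨hjQ, hmem⟩))

/-- T1 with one special element -/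
theorem T1s {y : ι} (hs : Simple v S) (hpos : ∀ i ∈ S, 0 < h (v i)) (hy : y ∈ S)
    (hK : KInd v (S.erase y) k)
    (hR : rk v S = k + 1) (hc : S.card = 2 * k + 2) :
    ∃ P, IsTope v S P ∧ 2 * k + 2 ≤ rk v P + rk v (S \ P) := by
  classical
  by_contra hcon
  push Not at hcon
  -- no side of full rank
  have hUc : ∀ P, IsMaxTope v S P →
      (inSp v P (S \ P)).card + (inSp v (S \ P) P).card + rk v S
        ≤ rk v P + rk v (S \ P) + 1 := by
    intro P hP
    have hPS := hP.1.1
    have h1 := U_card hK hPS (by have := hcon P hP.1; omega)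
    rw [← U_union]
    set U := inSp v P (S \ P) ∪ inSp v (S \ P) P with hUdef
    have hUS : U ⊆ S := U_sub hPS
    have h2 : U ∩ S.erase y = U.erase y := by
      ext x
      simp only [mem_inter, mem_erase]
      constructor
      · rintro ⟨h1, h2, h3⟩
        exact ⟨h2, h1⟩
      · rintro ⟨h1, h2⟩
        exact ⟨h2, h1, hUS h2⟩
    rw [h2] at h1
    have h3 : U.card ≤ (U.erase y).card + 1 := by
      have := card_le_card (insert_erase_subset y U)
      have h4 := card_insert_le y (U.erase y)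
      have h5 : U ⊆ insert y (U.erase y) := by
        intro x hx
        by_cases hxy : x = y
        · subst hxy; exact mem_insert_self _ _
        · exact mem_insert_of_mem (mem_erase.mpr ⟨hxy, hx⟩)
      exact (card_le_card h5).trans h4
    omega
  have hfull : ∀ P, IsMaxTope v S P → rk v P < rk v S := by
    intro P hP
    have hPS := hP.1.1
    refine lt_of_le_of_ne (rk_mono v hPS) ?_
    intro heq
    have hsp : sp v P = sp v S := sp_eq_of_rk v hPS heq.ge
    have hU := hUc P hP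
    have hb : inSp v (S \ P) P = S \ P := by
      ext i
      rw [mem_inSp, hsp]
      exact ⟨fun h => h.1, fun h => ⟨h, mem_sp v (mem_sdiff.mp h).1⟩⟩
    rw [hb] at hU
    have h1 := rk_le_card v P
    have h2 := rk_le_card v (S \ P)
    have hcs := card_side hPS
    have h0 := hcon P hP.1
    by_cases hq : rk v (S \ P) < (S \ P).card
    · have h3 := dep_other_card' h hs hpos hP hq
      omega
    · have h3 := dep_card h hs hpos hP (by omega)
      omega
  have hfull' : ∀ P, IsMaxTope v S P → rk v (S \ P) < rk v S := fun P hP => hfull _ hP.compl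
  -- a maximal tope with both sides dependent
  obtain ⟨P, hP, hp, hq⟩ : ∃ P, IsMaxTope v S P ∧ rk v P < P.card ∧
      rk v (S \ P) < (S \ P).card := by
    obtain ⟨P, hP⟩ := exists_maxTope hs
    have hPS := hP.1.1
    have h1 := rk_le_card v P
    have h2 := rk_le_card v (S \ P)
    have hcs := card_side hPS
    have hf := hfull P hP
    have hf' := hfull' P hP
    by_cases hp : rk v P < P.card
    · by_cases hq : rk v (S \ P) < (S \ P).card
      · exact ⟨P, hP, hp, hq⟩
      · obtain ⟨j, hj, -, hmax, h4, h5, h6⟩ := dep_other h hs hpos hP hp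
        refine ⟨_, hmax, ?_, h6⟩
        rw [rk_congr h4, card_erase_of_mem hj]
        omega
    · obtain ⟨j, hj, -, hmax, h4, h5, h6⟩ := dep_other h hs hpos hP.compl (by omega)
      refine ⟨_, hmax, ?_, h6⟩
      rw [rk_congr h4, card_erase_of_mem hj]
      omega
  have hf := hfull P hP
  have hf' := hfull' P hP
  by_cases hyP : y ∈ P
  · have hsub : S \ P ⊆ S.erase y := by
      intro x hx
      rw [mem_sdiff] at hx
      exact mem_erase.mpr ⟨fun h => hx.2 (h ▸ hyP), hx.1⟩
    have := hK.le_rk_of_dep hsub hq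
    omega
  · have hsub : P ⊆ S.erase y := by
      intro x hx
      exact mem_erase.mpr ⟨fun h => hyP (h ▸ hx), hP.1.1 hx⟩
    have := hK.le_rk_of_dep hsub hp
    omega

end

end Pool.Agent.H36.DV
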